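import Mathlib

set_option autoImplicit false

/-! # The Calkin algebra of a Hilbert space -/

open scoped InnerProductSpace
open Filter Topology

noncomputable section

namespace Pool.Agent.Helper290.Calk

variable {H : Type*} [NormedAddCommGroup H] [InnerProductSpace ℂ H] [CompleteSpace H]

/-- Compact operators send bounded weakly null families to norm null families. -/
lemma tendsto_of_compact {T : H →L[ℂ] H} (hT : IsCompactOperator T) {ι : Type*} {l : Filter ι}
    {f : ι → H} (hb : ∃ C : ℝ, ∀ i, ‖f i‖ ≤ C) (hw : ∀ h : H, Tendsto (fun i => ⟪h, f i⟫_ℂ) l (𝓝 0)) :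
    Tendsto (fun i => ‖T (f i)‖) l (𝓝 0) := by
  obtain ⟨C, hC⟩ := hb
  by_contra hcon
  rw [Metric.tendsto_nhds] at hcon
  push Not at hcon
  obtain ⟨ε, hε, hfreq⟩ := hcon
  have hK : IsCompact (closure (T '' Metric.closedBall 0 C)) :=
    hT.isCompact_closure_image_closedBall C
  -- restrict to the frequently set
  set l' := l ⊓ 𝓟 {i | ¬ dist ‖T (f i)‖ 0 < ε} with hl'
  have hne : l'.NeBot := by
    rw [hl', ← frequently_mem_iff_neBot]
    refine hfreq.mono fun i hi => ?_
    simpa using hi
  have hmem : ∀ i, T (f i) ∈ closure (T '' Metric.closedBall 0 C) := fun i =>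
    subset_closure ⟨f i, by simpa using hC i, rfl⟩
  obtain ⟨y, hy, hcl⟩ := hK.exists_clusterPt (f := Filter.map (fun i => T (f i)) l') (by
    rw [Filter.le_principal_iff, Filter.mem_map]
    exact Filter.Eventually.of_forall hmem)
  -- y = 0
  have hy0 : y = 0 := by
    rw [← inner_self_eq_zero (𝕜 := ℂ)]
    have h1 : Tendsto (fun i => ⟪y, T (f i)⟫_ℂ) l' (𝓝 0) := by
      have h2 : (fun i => ⟪y, T (f i)⟫_ℂ) = fun i => ⟪(ContinuousLinearMap.adjoint T) y, f i⟫_ℂ := by
        funext i
        rw [ContinuousLinearMap.adjoint_inner_left]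
      rw [h2]
      exact (hw _).mono_left inf_le_left
    have h3 : ClusterPt (⟪y, y⟫_ℂ) (Filter.map (fun i => ⟪y, T (f i)⟫_ℂ) l') := by
      have h4 : ClusterPt (⟪y, y⟫_ℂ) (Filter.map (fun z => ⟪y, z⟫_ℂ) (Filter.map (fun i => T (f i)) l')) := by
        have hc : Continuous (fun z : H => ⟪y, z⟫_ℂ) := by fun_prop
        exact hcl.map hc.continuousAt Filter.tendsto_map
      rwa [Filter.map_map] at h4
    have h5 : (𝓝 (⟪y, y⟫_ℂ) ⊓ 𝓝 (0 : ℂ)).NeBot := by
      exact h3.neBot.mono (inf_le_inf_left _ h1)
    exact (eq_of_nhds_neBot h5)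
  -- but norms are at least ε
  have h6 : ClusterPt ‖y‖ (Filter.map (fun i => ‖T (f i)‖) l') := by
    have h4 : ClusterPt ‖y‖ (Filter.map (fun z => ‖z‖) (Filter.map (fun i => T (f i)) l')) :=
      hcl.map continuous_norm.continuousAt Filter.tendsto_map
    rwa [Filter.map_map] at h4
  have h7 : ε ≤ ‖y‖ := by
    have hcl' : IsClosed (Set.Ici ε) := isClosed_Ici
    have h8 : ClusterPt ‖y‖ (𝓟 (Set.Ici ε)) := by
      refine h6.mono ?_
      rw [Filter.le_principal_iff, Filter.mem_map]
      have : {i | ¬ dist ‖T (f i)‖ 0 < ε} ∈ l' := Filter.mem_inf_of_right (Filter.mem_principal_self _)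
      filter_upwards [this] with i hi
      simpa using hi
    exact isClosed_iff_clusterPt.mp hcl' _ h8
  rw [hy0, norm_zero] at h7
  linarith

/-- The adjoint of a compact operator is compact. -/
lemma isCompact_adjoint {T : H →L[ℂ] H} (hT : IsCompactOperator T) :
    IsCompactOperator (star T : H →L[ℂ] H) := by
  have key := isCompactOperator_iff_isCompact_closure_image_closedBall (𝕜₁ := ℂ)
    ((star T : H →L[ℂ] H) : H →ₗ[ℂ] H) one_pos
  refine key.mpr ?_
  have h1 : IsCompactOperator (T * star T : H →L[ℂ] H) := hT.comp_clm (star T)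
  have h2 : TotallyBounded ((T * star T : H →L[ℂ] H) '' Metric.closedBall 0 1) :=
    ((h1.isCompact_closure_image_closedBall (f := ((T * star T : H →L[ℂ] H) : H →ₗ[ℂ] H))
      1).totallyBounded).subset subset_closure
  have h3 : TotallyBounded ((star T : H →L[ℂ] H) '' Metric.closedBall 0 1) := by
    refine Metric.totallyBounded_of_finite_discretization fun ε hε => ?_
    rw [Metric.totallyBounded_iff] at h2
    obtain ⟨t, htf, ht⟩ := h2 (ε ^ 2 / 8) (by positivity)
    have hex : ∀ x : ((star T : H →L[ℂ] H) '' Metric.closedBall 0 1), ∃ y : t, dist (T x.1) y.1 < ε ^ 2 / 8 := by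
      rintro ⟨x, h, hh, rfl⟩
      have := ht ⟨h, hh, rfl⟩
      simp only [Set.mem_iUnion, Metric.mem_ball] at this
      obtain ⟨y, hy, hxy⟩ := this
      exact ⟨⟨y, hy⟩, by simpa using hxy⟩
    choose F hF using hex
    have : Fintype t := htf.fintype
    refine ⟨t, inferInstance, F, ?_⟩
    rintro x y hxy
    obtain ⟨h, hh, hx⟩ := x.2
    obtain ⟨h', hh', hy⟩ := y.2
    have e1 : dist (T x.1) (T y.1) < ε ^ 2 / 4 := by
      have a := hF x
      have b := hF y
      rw [← hxy] at b
      calc dist (T x.1) (T y.1) ≤ dist (T x.1) (F x).1 + dist (T y.1) (F x).1 := dist_triangle_right _ _ _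
        _ < ε ^ 2 / 4 := by linarith
    rw [dist_eq_norm, ← map_sub] at e1
    have e2 : ‖x.1 - y.1‖ ^ 2 ≤ ‖T (x.1 - y.1)‖ * ‖h - h'‖ := by
      have e3 : x.1 - y.1 = (star T : H →L[ℂ] H) (h - h') := by rw [map_sub, hx, hy]
      have e4 : ⟪x.1 - y.1, x.1 - y.1⟫_ℂ = ⟪T (x.1 - y.1), h - h'⟫_ℂ := by
        generalize x.1 - y.1 = z at e3 ⊢
        conv_lhs => rw [e3]
        rw [ContinuousLinearMap.star_eq_adjoint, ContinuousLinearMap.adjoint_inner_right, e3,
          ContinuousLinearMap.star_eq_adjoint]
      have e5 : ‖x.1 - y.1‖ ^ 2 = ‖⟪x.1 - y.1, x.1 - y.1⟫_ℂ‖ := by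
        rw [inner_self_eq_norm_sq_to_K]
        simp
      rw [e5, e4]
      exact norm_inner_le_norm _ _
    have e6 : ‖h - h'‖ ≤ 2 := by
      have a : ‖h‖ ≤ 1 := by simpa using hh
      have b : ‖h'‖ ≤ 1 := by simpa using hh'
      linarith [norm_sub_le h h']
    rw [dist_eq_norm]
    have e7 : ‖x.1 - y.1‖ ^ 2 < ε ^ 2 := by
      nlinarith [norm_nonneg (T (x.1 - y.1)), norm_nonneg (h - h')]
    exact lt_of_pow_lt_pow_left₀ 2 hε.le e7
  exact isCompact_iff_totallyBounded_isComplete.mpr ⟨h3.closure, isClosed_closure.isComplete⟩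

variable (H) in
/-- The congruence on `B(H)` identifying operators whose difference is a compact operator. -/
def calkinCon : RingCon (H →L[ℂ] H) where
  r := fun T S => IsCompactOperator (T - S : H →L[ℂ] H)
  iseqv := by
    refine ⟨fun T => ?_, fun {T S} h => ?_, fun {T S R} h1 h2 => ?_⟩
    · simpa using isCompactOperator_zero (M₁ := H) (M₂ := H)
    · have := h.neg
      rw [← FunLike.coe_neg, neg_sub] at this
      exact this
    · have := h1.add h2
      rw [← FunLike.coe_add, sub_add_sub_cancel] at this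
      exact this
  add' := by
    intro T S T' S' h1 h2
    have := h1.add h2
    rw [← FunLike.coe_add] at this
    have e : T + T' - (S + S') = T - S + (T' - S') := by abel
    rw [e]
    exact this
  mul' := by
    intro T S T' S' h1 h2
    have a1 : IsCompactOperator ((T - S) * T' : H →L[ℂ] H) := h1.comp_clm T'
    have a2 : IsCompactOperator (S * (T' - S') : H →L[ℂ] H) := h2.clm_comp S
    have := a1.add a2
    rw [← FunLike.coe_add] at this
    have e : T * T' - S * S' = (T - S) * T' + S * (T' - S') := by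
      rw [sub_mul, mul_sub]; abel
    rw [e]
    exact this

variable (H) in
/-- The Calkin algebra `C(H) = B(H) / K(H)` of the Hilbert space `H`. -/
abbrev Calkin : Type _ := (calkinCon H).Quotient

/-- The quotient map `π : B(H) → C(H)`. -/
def π : (H →L[ℂ] H) →+* Calkin H := (calkinCon H).mk'

omit [CompleteSpace H] in
lemma π_eq_iff {T S : H →L[ℂ] H} : π T = π S ↔ IsCompactOperator (T - S : H →L[ℂ] H) :=
  RingCon.eq (calkinCon H)

omit [CompleteSpace H] in
lemma π_eq_zero_iff {T : H →L[ℂ] H} : π T = 0 ↔ IsCompactOperator T := by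
  rw [← map_zero (π (H := H)), π_eq_iff, sub_zero]

omit [CompleteSpace H] in
lemma π_surjective : Function.Surjective (π (H := H)) := RingCon.mk'_surjective _

/-- The adjoint operation of the Calkin algebra: `(π T)* = π (T*)`. -/
instance : Star (Calkin H) where
  star := Quotient.map' star (by
    intro T S h
    change IsCompactOperator (star T - star S : H →L[ℂ] H)
    rw [← star_sub]
    exact isCompact_adjoint h)

lemma π_star (T : H →L[ℂ] H) : π (star T) = star (π T) := rfl

instance : StarRing (Calkin H) where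
  star_involutive := by
    intro x
    obtain ⟨T, rfl⟩ := π_surjective x
    rw [← π_star, ← π_star, star_star]
  star_mul := by
    intro x y
    obtain ⟨T, rfl⟩ := π_surjective x
    obtain ⟨S, rfl⟩ := π_surjective y
    rw [← map_mul, ← π_star, ← π_star, ← π_star, star_mul, map_mul]
  star_add := by
    intro x y
    obtain ⟨T, rfl⟩ := π_surjective x
    obtain ⟨S, rfl⟩ := π_surjective y
    rw [← map_add, ← π_star, ← π_star, ← π_star, star_add, map_add]

/-! ### Filters of projections -/

section Filters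

variable {A : Type*} [Ring A] [StarRing A]

/-- `F` is a filter in the poset `P(A)` of projections of `A` (ordered by `p ≤ q ↔ p q = p`):
any two members have a common lower bound in `F`, and `F` is upward closed. -/
structure IsProjFilter (F : Set A) : Prop where
  proj : ∀ p ∈ F, IsStarProjection p
  directed : ∀ p ∈ F, ∀ q ∈ F, ∃ r ∈ F, r * p = r ∧ r * q = r
  upward : ∀ p ∈ F, ∀ r, IsStarProjection r → p * r = p → r ∈ F

/-- A maximal filter in `P(A)`: a proper filter (`0 ∉ F`) not strictly contained in another proper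
filter. -/
def IsMaximalFilter (F : Set A) : Prop :=
  IsProjFilter F ∧ 0 ∉ F ∧ ∀ G : Set A, IsProjFilter G → 0 ∉ G → F ⊆ G → G = F

/-- The family generated by `X`: the intersection of all filters in `P(A)` containing `X`. -/
def generated (X : Set A) : Set A := {p | ∀ F : Set A, IsProjFilter F → X ⊆ F → p ∈ F}

end Filters

variable (H) in
/-- The filter `F` in `P(C(H))` lifts: there is a family `X` of pairwise commuting projections of
`B(H)` whose generated family is a filter and is mapped by `π` onto `F`. -/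
def Lifts (F : Set (Calkin H)) : Prop :=
  ∃ X : Set (H →L[ℂ] H), (∀ x ∈ X, IsStarProjection x) ∧ (∀ x ∈ X, ∀ y ∈ X, x * y = y * x) ∧
    IsProjFilter (generated X) ∧ π '' generated X = F

end Pool.Agent.Helper290.Calk
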