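import Pool.Agent.Helper290.Calk.Comm

set_option autoImplicit false
set_option linter.unusedSectionVars false

/-! # Block decompositions and the base filter -/

open scoped InnerProductSpace
open Filter Topology

noncomputable section

namespace Pool.Agent.Helper290.Calk

variable {H : Type*} [NormedAddCommGroup H] [InnerProductSpace ℂ H] [CompleteSpace H]

section Blocks

variable {n : ℕ × ℕ → ℕ} (b : HilbertBasis (Σ p : ℕ × ℕ, Fin (n p)) ℂ H)

/-- The block with index `p`. -/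
def blk (p : ℕ × ℕ) : Submodule ℂ H := Submodule.span ℂ (Set.range fun i : Fin (n p) => b ⟨p, i⟩)

instance (p : ℕ × ℕ) : FiniteDimensional ℂ (blk b p) := by
  unfold blk
  exact FiniteDimensional.span_of_finite ℂ (Set.finite_range _)

/-- The mass of `x` in the block `p`. -/
def mass (p : ℕ × ℕ) (x : H) : ℝ := ∑ i : Fin (n p), ‖⟪b ⟨p, i⟩, x⟫_ℂ‖ ^ 2

lemma mass_nonneg (p : ℕ × ℕ) (x : H) : 0 ≤ mass b p x := Finset.sum_nonneg fun _ _ => by positivity

lemma hasSum_sq (x : H) : HasSum (fun i => ‖⟪b i, x⟫_ℂ‖ ^ 2) (‖x‖ ^ 2) := by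
  have h := b.hasSum_inner_mul_inner x x
  rw [inner_self_eq_norm_sq_to_K] at h
  have h2 : (fun i => ⟪x, b i⟫_ℂ * ⟪b i, x⟫_ℂ) = fun i => ((‖⟪b i, x⟫_ℂ‖ ^ 2 : ℝ) : ℂ) := by
    funext i
    rw [← inner_conj_symm x (b i), mul_comm, RCLike.mul_conj]
    push_cast
    rfl
  rw [h2] at h
  have h3 : ((‖x‖ : ℂ)) ^ 2 = ((‖x‖ ^ 2 : ℝ) : ℂ) := by push_cast; rfl
  exact Complex.hasSum_ofReal.mp (by rw [← h3]; exact h)

lemma hasSum_mass (x : H) : HasSum (fun p => mass b p x) (‖x‖ ^ 2) := by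
  have h := hasSum_sq b x
  exact h.sigma fun p => hasSum_fintype _

lemma mass_le (p : ℕ × ℕ) (x : H) : mass b p x ≤ ‖x‖ ^ 2 :=
  le_hasSum (hasSum_mass b x) p fun q _ => mass_nonneg b q x

/-- coordinates of `x` in the block `p` -/
def coord (p : ℕ × ℕ) (x : H) : EuclideanSpace ℂ (Fin (n p)) := WithLp.toLp 2 fun i => ⟪b ⟨p, i⟩, x⟫_ℂ

lemma norm_coord_sq (p : ℕ × ℕ) (x : H) : ‖coord b p x‖ ^ 2 = mass b p x := by
  rw [EuclideanSpace.norm_sq_eq]
  rfl

/-- the embedding of the coordinate space of the block `p` -/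
def emb (p : ℕ × ℕ) (w : EuclideanSpace ℂ (Fin (n p))) : H := ∑ i, w i • b ⟨p, i⟩

lemma emb_mem (p : ℕ × ℕ) (w : EuclideanSpace ℂ (Fin (n p))) : emb b p w ∈ blk b p := by
  unfold emb blk
  exact Submodule.sum_mem _ fun i _ => Submodule.smul_mem _ _ (Submodule.subset_span ⟨i, rfl⟩)

lemma inner_emb (p : ℕ × ℕ) (w : EuclideanSpace ℂ (Fin (n p))) (x : H) :
    ⟪emb b p w, x⟫_ℂ = ⟪w, coord b p x⟫_ℂ := by
  unfold emb coord
  rw [sum_inner, PiLp.inner_apply]
  refine Finset.sum_congr rfl fun i _ => ?_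
  rw [inner_smul_left]
  simp [mul_comm]

lemma coord_emb (p : ℕ × ℕ) (w : EuclideanSpace ℂ (Fin (n p))) : coord b p (emb b p w) = w := by
  unfold emb coord
  ext i
  simp only [inner_sum, inner_smul_right]
  have h := orthonormal_iff_ite.mp b.orthonormal
  rw [Finset.sum_eq_single i]
  · rw [h, if_pos rfl, mul_one]
  · intro j _ hj
    rw [h, if_neg, mul_zero]
    intro h2
    exact hj (by simpa using (Sigma.mk.inj_iff.mp h2).2.symm)
  · simp

lemma inner_emb_emb (p : ℕ × ℕ) (w w' : EuclideanSpace ℂ (Fin (n p))) :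
    ⟪emb b p w, emb b p w'⟫_ℂ = ⟪w, w'⟫_ℂ := by
  rw [inner_emb, coord_emb]

lemma blk_orth {p q : ℕ × ℕ} (h : p ≠ q) {x y : H} (hx : x ∈ blk b p) (hy : y ∈ blk b q) : ⟪x, y⟫_ℂ = 0 := by
  have h1 : blk b p ≤ (blk b q)ᗮ := by
    unfold blk
    rw [Submodule.span_le]
    rintro _ ⟨i, rfl⟩
    rw [SetLike.mem_coe, Submodule.mem_orthogonal]
    intro u hu
    refine Submodule.span_induction (p := fun u _ => ⟪u, b ⟨p, i⟩⟫_ℂ = 0) ?_ ?_ ?_ ?_ hu
    · rintro _ ⟨j, rfl⟩
      refine b.orthonormal.2 ?_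
      intro h2
      exact h (Sigma.mk.inj_iff.mp h2).1.symm
    · simp
    · intro x y _ _ hx hy; rw [inner_add_left, hx, hy, add_zero]
    · intro a x _ hx; rw [inner_smul_left, hx, mul_zero]
  have h2 := h1 hx
  rw [Submodule.mem_orthogonal] at h2
  rw [← inner_conj_symm, h2 y hy, map_zero]

lemma finrank_blk (p : ℕ × ℕ) : Module.finrank ℂ (blk b p) = n p := by
  unfold blk
  have hli : LinearIndependent ℂ (fun i : Fin (n p) => b ⟨p, i⟩) :=
    b.orthonormal.linearIndependent.comp (fun i : Fin (n p) => (⟨p, i⟩ : Σ p : ℕ × ℕ, Fin (n p)))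
      (fun i j hij => by simpa using hij)
  rw [finrank_span_eq_card hli, Fintype.card_fin]

/-- Admissible families of small subspaces of the blocks. -/
structure Adm (V : ℕ × ℕ → Submodule ℂ H) : Prop where
  le : ∀ p, V p ≤ blk b p
  small : ∀ t : ℕ, ∀ᶠ m in atTop, ∀ᶠ k in atTop, t * Module.finrank ℂ (V (m, k)) ≤ n (m, k)

/-- The projection onto the orthogonal complement of the sum of the subspaces `V p`. -/
def X (V : ℕ × ℕ → Submodule ℂ H) : H →L[ℂ] H := ((⨆ p, V p)ᗮ).starProjection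

omit [CompleteSpace H] in
lemma mem_K {V : ℕ × ℕ → Submodule ℂ H} {x : H} :
    x ∈ (⨆ p, V p)ᗮ ↔ ∀ p, ∀ y ∈ V p, ⟪y, x⟫_ℂ = 0 := by
  rw [Submodule.iSup_eq_span, Submodule.mem_orthogonal]
  constructor
  · intro h p y hy
    exact h y (Submodule.subset_span (Set.mem_iUnion.mpr ⟨p, hy⟩))
  · intro h u hu
    refine Submodule.span_induction (p := fun u _ => ⟪u, x⟫_ℂ = 0) ?_ ?_ ?_ ?_ hu
    · intro y hy
      obtain ⟨p, hp⟩ := Set.mem_iUnion.mp hy
      exact h p y hp
    · simp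
    · intro x y _ _ hx hy; rw [inner_add_left, hx, hy, add_zero]
    · intro a x _ hx; rw [inner_smul_left, hx, mul_zero]

lemma X_proj (V : ℕ × ℕ → Submodule ℂ H) : IsStarProjection (X V) := isStarProjection_starProjection

lemma X_mul_of_le {V V' : ℕ × ℕ → Submodule ℂ H} (h : ∀ p, V p ≤ V' p) : X V' * X V = X V' := by
  have h1 : (⨆ p, V' p)ᗮ ≤ (⨆ p, V p)ᗮ := Submodule.orthogonal_le (iSup_mono h)
  have h2 : X V * X V' = X V' := by
    ext x
    change ((⨆ p, V p)ᗮ).starProjection (((⨆ p, V' p)ᗮ).starProjection x) = _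
    rw [Submodule.starProjection_eq_self_iff.mpr (h1 (Submodule.starProjection_apply_mem _ _))]
    rfl
  have h3 := congrArg star h2
  rwa [star_mul, (X_proj V').isSelfAdjoint.star_eq, (X_proj V).isSelfAdjoint.star_eq] at h3

variable {b}

lemma Adm.sup {V V' : ℕ × ℕ → Submodule ℂ H} (h : Adm b V) (h' : Adm b V') :
    Adm b (fun p => V p ⊔ V' p) := by
  refine ⟨fun p => sup_le (h.le p) (h'.le p), fun t => ?_⟩
  filter_upwards [h.small (2 * t), h'.small (2 * t)] with m h1 h2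
  filter_upwards [h1, h2] with k h3 h4
  have : FiniteDimensional ℂ (V (m, k)) := Submodule.finiteDimensional_of_le (h.le _)
  have : FiniteDimensional ℂ (V' (m, k)) := Submodule.finiteDimensional_of_le (h'.le _)
  have h5 := Submodule.finrank_add_le_finrank_add_finrank (V (m, k)) (V' (m, k))
  have h6 : t * Module.finrank ℂ ((V (m, k) ⊔ V' (m, k) : Submodule ℂ H)) ≤
      t * (Module.finrank ℂ (V (m, k)) + Module.finrank ℂ (V' (m, k))) := Nat.mul_le_mul_left _ h5
  refine h6.trans ?_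
  rw [mul_add]
  have e1 : 2 * (t * Module.finrank ℂ (V (m, k))) ≤ n (m, k) := by rw [← mul_assoc]; exact h3
  have e2 : 2 * (t * Module.finrank ℂ (V' (m, k))) ≤ n (m, k) := by rw [← mul_assoc]; exact h4
  omega

/-- The base projections are not compact. -/
lemma Adm.not_compact (hn : ∀ p, 0 < n p) {V : ℕ × ℕ → Submodule ℂ H} (h : Adm b V) :
    ¬ IsCompactOperator (X V) := by
  intro hc
  obtain ⟨m, hm⟩ := (h.small 2).exists
  obtain ⟨k₀, hk₀⟩ := eventually_atTop.mp hm
  have hex : ∀ k, ∃ f : H, k₀ ≤ k → f ∈ blk b (m, k) ∧ (∀ y ∈ V (m, k), ⟪y, f⟫_ℂ = 0) ∧ ‖f‖ = 1 := by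
    intro k
    by_cases hk : k₀ ≤ k
    · have hlt : Module.finrank ℂ (V (m, k)) < Module.finrank ℂ (blk b (m, k)) := by
        rw [finrank_blk]
        have := hk₀ k hk
        have := hn (m, k)
        omega
      have hVfin : FiniteDimensional ℂ (V (m, k)) := Submodule.finiteDimensional_of_le (h.le _)
      have hne : (V (m, k))ᗮ ⊓ blk b (m, k) ≠ ⊥ := by
        intro hbot
        have h1 := Submodule.finrank_add_inf_finrank_orthogonal (h.le (m, k))
        rw [hbot, finrank_bot] at h1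
        omega
      obtain ⟨f, hf, hf0⟩ := Submodule.exists_mem_ne_zero_of_ne_bot hne
      refine ⟨((‖f‖⁻¹ : ℝ) : ℂ) • f, fun _ => ⟨Submodule.smul_mem _ _ hf.2, fun y hy => ?_, ?_⟩⟩
      · rw [inner_smul_right, (Submodule.mem_orthogonal _ _).mp hf.1 y hy, mul_zero]
      · rw [norm_smul, Complex.norm_real, norm_inv, norm_norm, inv_mul_cancel₀ (norm_ne_zero_iff.mpr hf0)]
    · exact ⟨0, fun h => absurd h hk⟩
  choose f hf using hex
  set g : ℕ → H := fun j => f (k₀ + j) with hg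
  have hg1 : ∀ j, g j ∈ blk b (m, k₀ + j) := fun j => (hf _ (by omega)).1
  have hgn : ∀ j, ‖g j‖ = 1 := fun j => (hf _ (by omega)).2.2
  have hgo : Orthonormal ℂ g := by
    refine ⟨hgn, fun i j hij => blk_orth b ?_ (hg1 i) (hg1 j)⟩
    intro h
    exact hij (by simpa using h)
  have hgX : ∀ j, X V (g j) = g j := by
    intro j
    unfold X
    rw [Submodule.starProjection_eq_self_iff, mem_K]
    intro p y hy
    by_cases hp : p = (m, k₀ + j)
    · subst hp
      exact (hf _ (by omega)).2.1 y hy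
    · exact blk_orth b hp (h.le p hy) (hg1 j)
  have ht := tendsto_of_compact hc (l := atTop) (f := g) ⟨1, fun j => (hgn j).le⟩ (fun x => by
    have h1 := hgo.inner_products_summable x
    have h2 := h1.tendsto_atTop_zero
    have h3 : Tendsto (fun j => ‖⟪g j, x⟫_ℂ‖) atTop (𝓝 0) := by
      have := (Real.continuous_sqrt.tendsto 0).comp h2
      rw [Real.sqrt_zero] at this
      refine this.congr fun j => ?_
      simp [Real.sqrt_sq (norm_nonneg _)]
    rw [tendsto_zero_iff_norm_tendsto_zero]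
    refine h3.congr fun j => ?_
    rw [← inner_conj_symm, RCLike.norm_conj])
  have h1 : Tendsto (fun _ : ℕ => (1 : ℝ)) atTop (𝓝 0) := by
    refine ht.congr fun j => ?_
    rw [hgX, hgn]
  exact one_ne_zero (tendsto_nhds_unique tendsto_const_nhds h1)

end Blocks

end Pool.Agent.Helper290.Calk
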