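import Mathlib

set_option autoImplicit false

/-! # A small dimensional subspace catching exponentially many vectors -/

open scoped InnerProductSpace

noncomputable section

namespace Pool.Agent.Helper290.Calk

variable {E : Type*} [NormedAddCommGroup E] [InnerProductSpace ℂ E]

/-- All signed sums `∑ ± b` of the members of a list. -/
def signSums : List E → List E
  | [] => [0]
  | b :: l => (signSums l).map (fun w => w + b) ++ (signSums l).map (fun w => w - b)

omit [InnerProductSpace ℂ E] in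
lemma length_signSums (l : List E) : (signSums l).length = 2 ^ l.length := by
  induction l with
  | nil => simp [signSums]
  | cons b l ih => simp [signSums, ih]; ring

lemma signSums_orth {l : List E} {x : E} (h : ∀ b ∈ l, ⟪x, b⟫_ℂ = 0) : ∀ w ∈ signSums l, ⟪x, w⟫_ℂ = 0 := by
  induction l with
  | nil => intro w hw; simp [signSums] at hw; simp [hw]
  | cons b l ih =>
    have hb := h b (by simp)
    have hl := ih fun c hc => h c (by simp [hc])
    intro w hw
    simp only [signSums, List.mem_append, List.mem_map] at hw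
    rcases hw with ⟨w', hw', rfl⟩ | ⟨w', hw', rfl⟩
    · rw [inner_add_right, hl w' hw', hb, add_zero]
    · rw [inner_sub_right, hl w' hw', hb, sub_zero]

lemma signSums_norm {l : List E} (h1 : ∀ b ∈ l, ‖b‖ = 1) (h2 : l.Pairwise fun x y => ⟪x, y⟫_ℂ = 0) :
    ∀ w ∈ signSums l, ‖w‖ ^ 2 = l.length := by
  induction l with
  | nil => intro w hw; simp [signSums] at hw; simp [hw]
  | cons b l ih =>
    rw [List.pairwise_cons] at h2
    have hl := ih (fun c hc => h1 c (by simp [hc])) h2.2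
    have hb := h1 b (by simp)
    intro w hw
    simp only [signSums, List.mem_append, List.mem_map] at hw
    rcases hw with ⟨w', hw', rfl⟩ | ⟨w', hw', rfl⟩
    · have ho := signSums_orth h2.1 w' hw'
      have := norm_add_sq_eq_norm_sq_add_norm_sq_of_inner_eq_zero b w' ho
      rw [add_comm w' b, sq, this, ← sq, ← sq, hl w' hw', hb]
      push_cast [List.length_cons]; ring
    · have ho : ⟪-b, w'⟫_ℂ = 0 := by rw [inner_neg_left, signSums_orth h2.1 w' hw', neg_zero]
      have := norm_add_sq_eq_norm_sq_add_norm_sq_of_inner_eq_zero (-b) w' ho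
      rw [sub_eq_add_neg, add_comm w' (-b), sq, this, ← sq, ← sq, hl w' hw', norm_neg, hb]
      push_cast [List.length_cons]; ring

/-- second moment -/
lemma signSums_m2 (l : List E) (v : E) :
    ((signSums l).map fun w => ‖⟪w, v⟫_ℂ‖ ^ 2).sum = 2 ^ l.length * (l.map fun b => ‖⟪b, v⟫_ℂ‖ ^ 2).sum := by
  induction l with
  | nil => simp [signSums]
  | cons b l ih =>
    simp only [signSums, List.map_append, List.map_map, List.sum_append, List.map_cons, List.sum_cons,
      List.length_cons]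
    rw [← List.sum_map_add]
    have e : ∀ w : E, ((fun w => ‖⟪w, v⟫_ℂ‖ ^ 2) ∘ fun w => w + b) w +
        ((fun w => ‖⟪w, v⟫_ℂ‖ ^ 2) ∘ fun w => w - b) w = 2 * ‖⟪w, v⟫_ℂ‖ ^ 2 + 2 * ‖⟪b, v⟫_ℂ‖ ^ 2 := by
      intro w
      simp only [Function.comp]
      rw [inner_add_left, inner_sub_left]
      have := parallelogram_law_with_norm ℝ (⟪w, v⟫_ℂ) (⟪b, v⟫_ℂ)
      nlinarith [this]
    rw [List.map_congr_left (g := fun w => 2 * ‖⟪w, v⟫_ℂ‖ ^ 2 + 2 * ‖⟪b, v⟫_ℂ‖ ^ 2) (fun w _ => e w)]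
    rw [List.sum_map_add, List.sum_map_mul_left, ih]
    simp only [List.map_const', List.sum_replicate, length_signSums, nsmul_eq_mul]
    push_cast
    ring

/-- an inequality for the fourth moment -/
lemma four_ineq (x y : ℂ) :
    ‖x + y‖ ^ 4 + ‖x - y‖ ^ 4 ≤ 2 * ‖x‖ ^ 4 + 12 * (‖x‖ ^ 2 * ‖y‖ ^ 2) + 2 * ‖y‖ ^ 4 := by
  have h := parallelogram_law_with_norm ℝ x y
  have h1 : ‖x + y‖ ≤ ‖x‖ + ‖y‖ := norm_add_le _ _
  have h2 : ‖x - y‖ ≤ ‖x‖ + ‖y‖ := norm_sub_le _ _
  have hre1 : ‖x + y‖ ^ 2 = ‖x‖ ^ 2 + 2 * (inner ℝ x y) + ‖y‖ ^ 2 := norm_add_sq_real x y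
  have hre2 : ‖x - y‖ ^ 2 = ‖x‖ ^ 2 - 2 * (inner ℝ x y) + ‖y‖ ^ 2 := norm_sub_sq_real x y
  have hcs : (inner ℝ x y) ^ 2 ≤ ‖x‖ ^ 2 * ‖y‖ ^ 2 := by
    have := abs_real_inner_le_norm x y
    have h3 := sq_le_sq' (by linarith [abs_le.mp this |>.1]) (abs_le.mp this).2
    nlinarith [h3]
  have e1 : ‖x + y‖ ^ 4 = (‖x + y‖ ^ 2) ^ 2 := by ring
  have e2 : ‖x - y‖ ^ 4 = (‖x - y‖ ^ 2) ^ 2 := by ring
  rw [e1, e2, hre1, hre2]
  nlinarith [hcs, sq_nonneg (‖x‖ ^ 2), sq_nonneg (‖y‖ ^ 2)]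

/-- fourth moment -/
lemma signSums_m4 (l : List E) (v : E) :
    ((signSums l).map fun w => ‖⟪w, v⟫_ℂ‖ ^ 4).sum ≤
      3 * 2 ^ l.length * (l.map fun b => ‖⟪b, v⟫_ℂ‖ ^ 2).sum ^ 2 := by
  induction l with
  | nil => simp [signSums]
  | cons b l ih =>
    simp only [signSums, List.map_append, List.map_map, List.sum_append, List.map_cons, List.sum_cons,
      List.length_cons]
    rw [← List.sum_map_add]
    have e : ∀ w : E, ((fun w => ‖⟪w, v⟫_ℂ‖ ^ 4) ∘ fun w => w + b) w +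
        ((fun w => ‖⟪w, v⟫_ℂ‖ ^ 4) ∘ fun w => w - b) w ≤
        2 * ‖⟪w, v⟫_ℂ‖ ^ 4 + (12 * ‖⟪b, v⟫_ℂ‖ ^ 2) * ‖⟪w, v⟫_ℂ‖ ^ 2 + 2 * ‖⟪b, v⟫_ℂ‖ ^ 4 := by
      intro w
      simp only [Function.comp]
      rw [inner_add_left, inner_sub_left]
      have := four_ineq (⟪w, v⟫_ℂ) (⟪b, v⟫_ℂ)
      linarith [this]
    refine (List.sum_le_sum fun w _ => e w).trans ?_
    rw [List.sum_map_add, List.sum_map_add, List.sum_map_mul_left, List.sum_map_mul_left, signSums_m2]
    simp only [List.map_const', List.sum_replicate, length_signSums, nsmul_eq_mul]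
    set s := (l.map fun b => ‖⟪b, v⟫_ℂ‖ ^ 2).sum with hs
    set t := ‖⟪b, v⟫_ℂ‖ ^ 2 with ht
    have ht4 : ‖⟪b, v⟫_ℂ‖ ^ 4 = t ^ 2 := by rw [ht]; ring
    rw [ht4]
    have h2 : (0 : ℝ) < 2 ^ l.length := by positivity
    have h3 : (2 : ℝ) ^ (l.length + 1) = 2 * 2 ^ l.length := by ring
    push_cast
    rw [h3]
    nlinarith [sq_nonneg t, mul_nonneg h2.le (sq_nonneg t)]

lemma exp_neg_le {x : ℝ} (hx : 0 ≤ x) : Real.exp (-x) ≤ 1 - x + x ^ 2 / 2 := by
  have h := Real.quadratic_le_exp_of_nonneg hx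
  have hpos : 0 < 1 + x + x ^ 2 / 2 := by positivity
  have h1 : Real.exp (-x) ≤ (1 + x + x ^ 2 / 2)⁻¹ := by
    rw [Real.exp_neg]
    exact inv_anti₀ hpos h
  refine h1.trans ?_
  rw [inv_le_iff_one_le_mul₀ hpos]
  nlinarith [sq_nonneg (x ^ 2)]

lemma sum_swap {α ι : Type*} (L : List α) (S : Finset ι) (f : ι → α → ℝ) :
    (L.map fun w => ∑ i ∈ S, f i w).sum = ∑ i ∈ S, (L.map (f i)).sum := by
  induction L with
  | nil => simp
  | cons a L ih => simp [ih, Finset.sum_add_distrib]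

/-- one step of the construction: the averaged potential decreases by a factor `23/24` -/
lemma exists_step {l : List E} {ι : Type*} (S : Finset ι) (v : ι → E) (c : ι → ℝ) (hc : ∀ i ∈ S, 0 ≤ c i)
    (μ : ℝ) (hμ : 0 ≤ μ)
    (h1 : ∀ i ∈ S, 1 / 12 ≤ μ * (l.map fun b => ‖⟪b, v i⟫_ℂ‖ ^ 2).sum)
    (h2 : ∀ i ∈ S, μ * (l.map fun b => ‖⟪b, v i⟫_ℂ‖ ^ 2).sum ≤ 1 / 3) :
    ∃ w ∈ signSums l, ∑ i ∈ S, c i * Real.exp (-(μ * ‖⟪w, v i⟫_ℂ‖ ^ 2)) ≤ 23 / 24 * ∑ i ∈ S, c i := by
  by_contra hcon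
  push Not at hcon
  have hpos : (0 : ℝ) < 2 ^ l.length := by positivity
  have h3 : ((signSums l).map fun w => ∑ i ∈ S, c i * Real.exp (-(μ * ‖⟪w, v i⟫_ℂ‖ ^ 2))).sum ≤
      2 ^ l.length * (23 / 24 * ∑ i ∈ S, c i) := by
    rw [sum_swap, Finset.mul_sum, Finset.mul_sum]
    refine Finset.sum_le_sum fun i hi => ?_
    rw [List.sum_map_mul_left]
    set s := (l.map fun b => ‖⟪b, v i⟫_ℂ‖ ^ 2).sum with hs
    have h5 : ((signSums l).map fun w => Real.exp (-(μ * ‖⟪w, v i⟫_ℂ‖ ^ 2))).sum ≤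
        ((signSums l).map fun w => (1 + (-μ) * ‖⟪w, v i⟫_ℂ‖ ^ 2) + (μ ^ 2 / 2) * ‖⟪w, v i⟫_ℂ‖ ^ 4).sum := by
      refine List.sum_le_sum fun w _ => ?_
      have := exp_neg_le (x := μ * ‖⟪w, v i⟫_ℂ‖ ^ 2) (by positivity)
      refine this.trans (le_of_eq ?_)
      ring
    have h6 : ((signSums l).map fun w => (1 + (-μ) * ‖⟪w, v i⟫_ℂ‖ ^ 2) + (μ ^ 2 / 2) * ‖⟪w, v i⟫_ℂ‖ ^ 4).sum ≤
        2 ^ l.length * (23 / 24) := by
      rw [List.sum_map_add, List.sum_map_add, List.sum_map_mul_left, List.sum_map_mul_left, signSums_m2]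
      have m4 := signSums_m4 l (v i)
      rw [← hs] at m4 ⊢
      simp only [List.map_const', List.sum_replicate, length_signSums, nsmul_eq_mul]
      push_cast
      have a1 := h1 i hi
      have a2 := h2 i hi
      rw [← hs] at a1 a2
      have hm : μ ^ 2 / 2 * ((signSums l).map fun w => ‖⟪w, v i⟫_ℂ‖ ^ 4).sum ≤
          μ ^ 2 / 2 * (3 * 2 ^ l.length * s ^ 2) := by gcongr
      have hq : 3 / 2 * (μ * s) ^ 2 ≤ (μ * s) / 2 := by nlinarith
      have hfin : 1 - μ * s + 3 / 2 * (μ * s) ^ 2 ≤ 23 / 24 := by linarith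
      have := mul_le_mul_of_nonneg_left hfin hpos.le
      nlinarith [this, hm]
    calc c i * ((signSums l).map fun w => Real.exp (-(μ * ‖⟪w, v i⟫_ℂ‖ ^ 2))).sum
        ≤ c i * (2 ^ l.length * (23 / 24)) := mul_le_mul_of_nonneg_left (h5.trans h6) (hc i hi)
      _ = 2 ^ l.length * (23 / 24 * c i) := by ring
  have h4 : 2 ^ l.length * (23 / 24 * ∑ i ∈ S, c i) <
      ((signSums l).map fun w => ∑ i ∈ S, c i * Real.exp (-(μ * ‖⟪w, v i⟫_ℂ‖ ^ 2))).sum := by
    have h5 := List.sum_lt_sum_of_ne_nil (l := signSums l) (by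
      intro h
      have := length_signSums l
      rw [h] at this
      simp at this
      have h6 : 0 < 2 ^ l.length := by positivity
      omega) (fun _ => 23 / 24 * ∑ i ∈ S, c i) (fun w => ∑ i ∈ S, c i * Real.exp (-(μ * ‖⟪w, v i⟫_ℂ‖ ^ 2)))
      (fun w hw => hcon w hw)
    simp only [List.map_const', List.sum_replicate, length_signSums, nsmul_eq_mul] at h5
    push_cast at h5
    exact h5
  exact absurd h3 (not_le.mpr h4)

/-- mass of `x` on the first `k` basis vectors -/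
def headMass {n : ℕ} (u : OrthonormalBasis (Fin n) ℂ E) (k : ℕ) (x : E) : ℝ :=
  ∑ j : Fin n, if j.1 < k then ‖⟪u j, x⟫_ℂ‖ ^ 2 else 0

lemma headMass_nonneg {n : ℕ} (u : OrthonormalBasis (Fin n) ℂ E) (k : ℕ) (x : E) : 0 ≤ headMass u k x :=
  Finset.sum_nonneg fun j _ => by split_ifs <;> positivity

lemma headMass_succ {n : ℕ} (u : OrthonormalBasis (Fin n) ℂ E) (k : ℕ) (hk : k < n) (x : E) :
    headMass u (k + 1) x = headMass u k x + ‖⟪u ⟨k, hk⟩, x⟫_ℂ‖ ^ 2 := by
  unfold headMass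
  have h1 : ∀ j : Fin n, (if j.1 < k + 1 then ‖⟪u j, x⟫_ℂ‖ ^ 2 else 0) =
      (if j.1 < k then ‖⟪u j, x⟫_ℂ‖ ^ 2 else 0) + (if j = ⟨k, hk⟩ then ‖⟪u j, x⟫_ℂ‖ ^ 2 else 0) := by
    intro j
    by_cases h : j.1 < k
    · have h2 : j ≠ ⟨k, hk⟩ := by
        intro h3; rw [h3] at h; simp at h
      simp [h, h2, Nat.lt_succ_of_lt h]
    · by_cases h2 : j = ⟨k, hk⟩
      · subst h2; simp
      · have h3 : ¬ j.1 < k + 1 := by
          intro h4
          exact h2 (Fin.ext (by simp; omega))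
        simp [h, h2, h3]
  rw [Finset.sum_congr rfl fun j _ => h1 j, Finset.sum_add_distrib]
  simp

lemma sum_filter_map {α : Type*} (L : List α) (p : α → Bool) (f : α → ℝ) :
    ((L.filter p).map f).sum = (L.map fun j => if p j then f j else 0).sum := by
  induction L with
  | nil => simp
  | cons a L ih =>
    by_cases h : p a
    · simp [h, ih]
    · simp [h, ih]

/-- the vectors of the basis from index `k` on -/
def tailList {n : ℕ} (u : OrthonormalBasis (Fin n) ℂ E) (k : ℕ) : List E :=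
  ((List.finRange n).filter (fun j => decide (k ≤ j.1))).map u

lemma tailList_sum {n : ℕ} (u : OrthonormalBasis (Fin n) ℂ E) (k : ℕ) (x : E) :
    ((tailList u k).map fun b => ‖⟪b, x⟫_ℂ‖ ^ 2).sum = ‖x‖ ^ 2 - headMass u k x := by
  have h0 : ((tailList u k).map fun b => ‖⟪b, x⟫_ℂ‖ ^ 2).sum =
      ∑ j : Fin n, if k ≤ j.1 then ‖⟪u j, x⟫_ℂ‖ ^ 2 else 0 := by
    unfold tailList
    rw [List.map_map, sum_filter_map, Fin.sum_univ_def]
    simp
  rw [h0, ← u.sum_sq_norm_inner_right x]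
  unfold headMass
  rw [eq_sub_iff_add_eq, ← Finset.sum_add_distrib]
  refine Finset.sum_congr rfl fun j _ => ?_
  by_cases h : j.1 < k
  · simp [h, not_le.mpr h]
  · simp [h, not_lt.mp h]

lemma tailList_length {n : ℕ} (u : OrthonormalBasis (Fin n) ℂ E) (k : ℕ) (hk : k ≤ n) :
    (tailList u k).length = n - k := by
  unfold tailList
  rw [List.length_map]
  have h1 : (((List.finRange n).filter (fun j => decide (k ≤ j.1))).length : ℝ) = ((n - k : ℕ) : ℝ) := by
    have h2 := sum_filter_map (List.finRange n) (fun j => decide (k ≤ j.1)) (fun _ => 1)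
    simp only [List.map_const', List.sum_replicate, nsmul_eq_mul, mul_one] at h2
    rw [h2, ← Fin.sum_univ_def]
    have h3 := Fin.sum_univ_eq_sum_range (fun j => if decide (k ≤ j) = true then (1 : ℝ) else 0) n
    rw [h3]
    simp only [decide_eq_true_eq]
    rw [Finset.sum_boole]
    congr 1
    have : {x ∈ Finset.range n | k ≤ x} = Finset.Ico k n := by
      ext x
      simp [and_comm]
    rw [this, Nat.card_Ico]
  exact_mod_cast h1

lemma tailList_norm {n : ℕ} (u : OrthonormalBasis (Fin n) ℂ E) (k : ℕ) : ∀ b ∈ tailList u k, ‖b‖ = 1 := by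
  intro b hb
  unfold tailList at hb
  rw [List.mem_map] at hb
  obtain ⟨j, _, rfl⟩ := hb
  exact u.orthonormal.1 j

lemma tailList_pairwise {n : ℕ} (u : OrthonormalBasis (Fin n) ℂ E) (k : ℕ) :
    (tailList u k).Pairwise fun x y => ⟪x, y⟫_ℂ = 0 := by
  unfold tailList
  rw [List.pairwise_map]
  refine List.Pairwise.imp ?_ ((List.nodup_finRange n).filter _)
  intro a b hab
  exact u.orthonormal.2 hab

lemma tailList_orth {n : ℕ} (u : OrthonormalBasis (Fin n) ℂ E) (k : ℕ) (j : Fin n) (hj : j.1 < k) :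
    ∀ b ∈ tailList u k, ⟪u j, b⟫_ℂ = 0 := by
  intro b hb
  unfold tailList at hb
  rw [List.mem_map] at hb
  obtain ⟨i, hi, rfl⟩ := hb
  rw [List.mem_filter] at hi
  have : k ≤ i.1 := by simpa using hi.2
  refine u.orthonormal.2 ?_
  rintro rfl
  omega

/-- the potential of a partial construction -/
def potential {n : ℕ} {ι : Type*} (S : Finset ι) (v : ι → E) (u : OrthonormalBasis (Fin n) ℂ E) (k : ℕ) : ℝ :=
  open scoped Classical in
  ∑ i ∈ S.filter (fun i => headMass u k (v i) < 1 / 2), Real.exp (-((n : ℝ) / 6 * headMass u k (v i)))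

lemma exists_basis [FiniteDimensional ℂ E] {n : ℕ} (hn : Module.finrank ℂ E = n) {d : ℕ} (hd : 2 * d ≤ n)
    {ι : Type*} (S : Finset ι) (v : ι → E) (hv : ∀ i ∈ S, ‖v i‖ = 1) :
    ∀ k ≤ d, ∃ u : OrthonormalBasis (Fin n) ℂ E, potential S v u k ≤ S.card * (23 / 24) ^ k := by
  classical
  intro k
  induction k with
  | zero =>
    intro _
    refine ⟨(stdOrthonormalBasis ℂ E).reindex (finCongr hn), ?_⟩
    unfold potential
    have h1 : ∀ (u : OrthonormalBasis (Fin n) ℂ E) (x : E), headMass u 0 x = 0 := fun u x => by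
      unfold headMass; simp
    simp only [h1, mul_zero, neg_zero, Real.exp_zero, pow_zero, mul_one]
    rw [Finset.sum_const, nsmul_eq_mul, mul_one]
    exact_mod_cast Finset.card_le_card (Finset.filter_subset _ _)
  | succ k ih =>
    intro hk
    obtain ⟨u, hu⟩ := ih (by omega)
    have hkn : k < n := by omega
    set l := tailList u k with hl
    have hlen : l.length = n - k := tailList_length u k hkn.le
    have hnk : (0 : ℝ) < (n : ℝ) - k := by
      have : (k : ℝ) < n := by exact_mod_cast hkn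
      linarith
    have hnk2 : (n : ℝ) / 2 ≤ (n : ℝ) - k := by
      have : (2 : ℝ) * k ≤ n := by exact_mod_cast (by omega : 2 * k ≤ n)
      linarith
    have hn0 : (0 : ℝ) < n := by
      have : 0 < n := by omega
      exact_mod_cast this
    set μ : ℝ := (n : ℝ) / 6 / ((n : ℝ) - k) with hμ
    have hμ0 : 0 ≤ μ := by positivity
    have hμ1 : 1 / 6 ≤ μ := by
      rw [hμ, le_div_iff₀ hnk]
      have : (0 : ℝ) ≤ k := Nat.cast_nonneg k
      linarith
    have hμ2 : μ ≤ 1 / 3 := by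
      rw [hμ, div_le_iff₀ hnk]
      linarith
    set S' := S.filter (fun i => headMass u k (v i) < 1 / 2) with hS'
    have hsum : ∀ i ∈ S', (l.map fun b => ‖⟪b, v i⟫_ℂ‖ ^ 2).sum = 1 - headMass u k (v i) := by
      intro i hi
      rw [hl, tailList_sum, hv i (Finset.mem_filter.mp hi).1, one_pow]
    obtain ⟨w, hw, hstep⟩ := exists_step (l := l) S' v
      (fun i => Real.exp (-((n : ℝ) / 6 * headMass u k (v i)))) (fun i _ => (Real.exp_pos _).le) μ hμ0
      (by
        intro i hi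
        rw [hsum i hi]
        have := (Finset.mem_filter.mp hi).2
        nlinarith [headMass_nonneg u k (v i)])
      (by
        intro i hi
        rw [hsum i hi]
        nlinarith [headMass_nonneg u k (v i)])
    have hwn : ‖w‖ ^ 2 = (n : ℝ) - k := by
      rw [signSums_norm (tailList_norm u k) (tailList_pairwise u k) w hw, hlen, Nat.cast_sub hkn.le]
    have hwo : ∀ j : Fin n, j.1 < k → ⟪u j, w⟫_ℂ = 0 := fun j hj =>
      signSums_orth (tailList_orth u k j hj) w hw
    set r : ℝ := (Real.sqrt ((n : ℝ) - k))⁻¹ with hr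
    have hsq : Real.sqrt ((n : ℝ) - k) ^ 2 = (n : ℝ) - k := Real.sq_sqrt hnk.le
    have hsqpos : 0 < Real.sqrt ((n : ℝ) - k) := Real.sqrt_pos.mpr hnk
    have hwn' : ‖w‖ = Real.sqrt ((n : ℝ) - k) := by
      rw [← hwn, Real.sqrt_sq (norm_nonneg _)]
    set w' : E := (r : ℂ) • w with hw'
    have hw'n : ‖w'‖ = 1 := by
      rw [hw', norm_smul, Complex.norm_real, Real.norm_of_nonneg (by positivity), hwn', hr,
        inv_mul_cancel₀ hsqpos.ne']
    set f : Fin n → E := Function.update u ⟨k, hkn⟩ w' with hf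
    have hforth : Orthonormal ℂ (({j : Fin n | j.1 ≤ k} : Set (Fin n)).domRestrict f) := by
      have hval : ∀ j : Fin n, j.1 < k → f j = u j := by
        intro j hj
        rw [hf, Function.update_of_ne]
        intro h; rw [h] at hj; simp at hj
      have hvalk : f ⟨k, hkn⟩ = w' := by rw [hf, Function.update_self]
      refine ⟨?_, ?_⟩
      · rintro ⟨j, hj⟩
        change ‖f j‖ = 1
        rcases lt_or_eq_of_le (show j.1 ≤ k from hj) with h | h
        · rw [hval j h]; exact u.orthonormal.1 j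
        · have : j = ⟨k, hkn⟩ := Fin.ext h
          rw [this, hvalk, hw'n]
      · rintro ⟨i, hi⟩ ⟨j, hj⟩ hij
        change ⟪f i, f j⟫_ℂ = 0
        have hij' : i ≠ j := fun h => hij (Subtype.ext h)
        rcases lt_or_eq_of_le (show i.1 ≤ k from hi) with h1 | h1 <;>
          rcases lt_or_eq_of_le (show j.1 ≤ k from hj) with h2 | h2
        · rw [hval i h1, hval j h2]; exact u.orthonormal.2 hij'
        · have : j = ⟨k, hkn⟩ := Fin.ext h2
          rw [hval i h1, this, hvalk, hw', inner_smul_right, hwo i h1, mul_zero]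
        · have : i = ⟨k, hkn⟩ := Fin.ext h1
          rw [this, hvalk, hval j h2, hw', inner_smul_left, ← inner_conj_symm, hwo j h2]
          simp
        · exact absurd (Fin.ext (h1.trans h2.symm)) hij'
    obtain ⟨u', hu'⟩ := hforth.exists_orthonormalBasis_extension_of_card_eq (by simpa using hn)
    have hu'k : u' ⟨k, hkn⟩ = w' := by
      rw [hu' _ (by simp), hf, Function.update_self]
    have hhead : ∀ x, headMass u' k x = headMass u k x := by
      intro x
      unfold headMass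
      refine Finset.sum_congr rfl fun j _ => ?_
      by_cases h : j.1 < k
      · rw [if_pos h, if_pos h, hu' j (by simpa using h.le), hf, Function.update_of_ne]
        intro h'; rw [h'] at h; simp at h
      · rw [if_neg h, if_neg h]
    have hhead' : ∀ x, (n : ℝ) / 6 * headMass u' (k + 1) x =
        (n : ℝ) / 6 * headMass u k x + μ * ‖⟪w, x⟫_ℂ‖ ^ 2 := by
      intro x
      rw [headMass_succ u' k hkn, hhead, hu'k, hw', inner_smul_left, norm_mul, mul_pow]
      have : ‖(starRingEnd ℂ) (r : ℂ)‖ ^ 2 = ((n : ℝ) - k)⁻¹ := by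
        rw [RCLike.norm_conj, Complex.norm_real, Real.norm_of_nonneg (by positivity), hr, inv_pow, hsq]
      rw [this, hμ]
      field_simp
    refine ⟨u', ?_⟩
    have hle : potential S v u' (k + 1) ≤
        ∑ i ∈ S', Real.exp (-((n : ℝ) / 6 * headMass u k (v i))) * Real.exp (-(μ * ‖⟪w, v i⟫_ℂ‖ ^ 2)) := by
      unfold potential
      have hsub : S.filter (fun i => headMass u' (k + 1) (v i) < 1 / 2) ⊆ S' := by
        intro i hi
        rw [Finset.mem_filter] at hi ⊢
        refine ⟨hi.1, lt_of_le_of_lt ?_ hi.2⟩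
        rw [headMass_succ u' k hkn, hhead]
        have : 0 ≤ ‖⟪u' ⟨k, hkn⟩, v i⟫_ℂ‖ ^ 2 := by positivity
        linarith
      calc ∑ i ∈ S.filter (fun i => headMass u' (k + 1) (v i) < 1 / 2),
            Real.exp (-((n : ℝ) / 6 * headMass u' (k + 1) (v i)))
          ≤ ∑ i ∈ S', Real.exp (-((n : ℝ) / 6 * headMass u' (k + 1) (v i))) :=
            Finset.sum_le_sum_of_subset_of_nonneg hsub fun _ _ _ => (Real.exp_pos _).le
        _ = _ := by
            refine Finset.sum_congr rfl fun i _ => ?_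
            rw [← Real.exp_add, hhead']
            congr 1
            ring
    refine hle.trans (hstep.trans ?_)
    have hu2 : ∑ i ∈ S', Real.exp (-((n : ℝ) / 6 * headMass u k (v i))) ≤ S.card * (23 / 24) ^ k := hu
    calc 23 / 24 * ∑ i ∈ S', Real.exp (-((n : ℝ) / 6 * headMass u k (v i)))
        ≤ 23 / 24 * (S.card * (23 / 24) ^ k) := by gcongr
      _ = S.card * (23 / 24) ^ (k + 1) := by ring

/-- **Catch lemma.** A `d`-dimensional subspace of an `n`-dimensional space catching many unit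
vectors. -/
lemma catch_lemma [FiniteDimensional ℂ E] {n : ℕ} (hn : Module.finrank ℂ E = n) {d : ℕ} (hd : 2 * d ≤ n)
    {ι : Type*} (S : Finset ι) (v : ι → E) (hv : ∀ i ∈ S, ‖v i‖ = 1) {c : ℝ} (hc : c ≤ 1 / 2)
    (hcount : S.card * (23 / 24 : ℝ) ^ d < Real.exp (-((n : ℝ) / 6 * c))) :
    ∃ w : Fin d → E, Orthonormal ℂ w ∧ ∀ i ∈ S, c ≤ ∑ j, ‖⟪w j, v i⟫_ℂ‖ ^ 2 := by
  classical
  obtain ⟨u, hu⟩ := exists_basis hn hd S v hv d le_rfl
  have hdn : d ≤ n := by omega
  refine ⟨fun j => u (Fin.castLE hdn j), u.orthonormal.comp _ (Fin.castLE_injective hdn), fun i hi => ?_⟩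
  have hsum : ∑ j : Fin d, ‖⟪u (Fin.castLE hdn j), v i⟫_ℂ‖ ^ 2 = headMass u d (v i) := by
    unfold headMass
    rw [← Finset.sum_filter]
    symm
    refine Finset.sum_bij' (i := fun (j : Fin n) hj => (⟨j.1, (Finset.mem_filter.mp hj).2⟩ : Fin d))
      (j := fun j _ => Fin.castLE hdn j) ?_ ?_ ?_ ?_ ?_
    · intro j hj; simp
    · intro j hj; simp
    · intro j hj; ext; simp
    · intro j hj; ext; simp
    · intro j hj; rfl
  rw [hsum]
  by_contra hlt
  push Not at hlt
  have h1 : headMass u d (v i) < 1 / 2 := lt_of_lt_of_le hlt hc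
  have h2 : Real.exp (-((n : ℝ) / 6 * headMass u d (v i))) ≤ potential S v u d := by
    unfold potential
    exact Finset.single_le_sum (f := fun i => Real.exp (-((n : ℝ) / 6 * headMass u d (v i))))
      (fun _ _ => (Real.exp_pos _).le) (Finset.mem_filter.mpr ⟨hi, h1⟩)
  have h3 : Real.exp (-((n : ℝ) / 6 * c)) ≤ Real.exp (-((n : ℝ) / 6 * headMass u d (v i))) := by
    apply Real.exp_le_exp.mpr
    have : (0 : ℝ) ≤ n / 6 := by positivity
    nlinarith
  linarith

end Pool.Agent.Helper290.Calk
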