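import Pool.Agent.Helper290.Calk.CaseD
import Pool.Agent.Helper290.Calk.Catch

set_option autoImplicit false
set_option linter.unusedSectionVars false

/-! # The atomic part -/

open scoped InnerProductSpace
open Filter Topology

noncomputable section

namespace Pool.Agent.Helper290.Calk

variable {H : Type*} [NormedAddCommGroup H] [InnerProductSpace ℂ H] [CompleteSpace H]

/-! ### Orthonormal systems of joint eigenvectors -/

/-- A maximal orthonormal set of joint eigenvectors spans the atomic part. -/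
lemma exists_eigvec_system {B : Set (H →L[ℂ] H)} (hB : IsMaxComm B) :
    ∃ v : Set H, Orthonormal ℂ (Subtype.val : v → H) ∧ v ⊆ eigvecs B ∧
      atomSpace B = (Submodule.span ℂ v).topologicalClosure := by
  obtain ⟨v, -, hv⟩ := zorn_subset_nonempty
    {s : Set H | Orthonormal ℂ (Subtype.val : s → H) ∧ s ⊆ eigvecs B}
    (by
      intro c hc1 hc2 hne
      refine ⟨⋃₀ c, ⟨orthonormal_sUnion_of_directed hc2.directedOn fun s hs => (hc1 hs).1, ?_⟩,
        fun s hs => Set.subset_sUnion_of_mem hs⟩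
      exact Set.sUnion_subset fun s hs => (hc1 hs).2) ∅ ⟨by simp, by simp⟩
  refine ⟨v, hv.prop.1, hv.prop.2, ?_⟩
  have hvo := hv.prop.1
  have key : eigvecs B ⊆ Submodule.span ℂ v := by
    intro g hg
    by_cases hg0 : g = 0
    · rw [hg0]; exact Submodule.zero_mem _
    by_cases hex : ∃ w ∈ v, ⟪w, g⟫_ℂ ≠ 0
    · obtain ⟨w, hw, hwg⟩ := hex
      have hwn : ‖w‖ = 1 := hvo.1 ⟨w, hw⟩
      have haB : (Submodule.span ℂ {w}).starProjection ∈ B := by
        refine hB.starProjection_mem _ fun b hb x hx => ?_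
        obtain ⟨t, rfl⟩ := Submodule.mem_span_singleton.mp hx
        rw [map_smul]
        rcases hv.prop.2 hw b hb with h | h
        · rw [h, smul_zero]; exact Submodule.zero_mem _
        · rw [h]; exact hx
      have h1 : (Submodule.span ℂ {w}).starProjection g = ⟪w, g⟫_ℂ • w :=
        Submodule.starProjection_unit_singleton ℂ hwn g
      rcases hg _ haB with h | h
      · exfalso
        rw [h1] at h
        rcases smul_eq_zero.mp h with h2 | h2
        · exact hwg h2
        · rw [h2, norm_zero] at hwn; exact zero_ne_one hwn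
      · rw [h1] at h
        rw [← h]
        exact Submodule.smul_mem _ _ (Submodule.subset_span hw)
    · exfalso
      push Not at hex
      set a : H := ((‖g‖⁻¹ : ℝ) : ℂ) • g with ha
      have han : ‖a‖ = 1 := by
        rw [ha, norm_smul, Complex.norm_real, norm_inv, norm_norm, inv_mul_cancel₀ (norm_ne_zero_iff.mpr hg0)]
      have hao : ∀ w ∈ v, ⟪w, a⟫_ℂ = 0 := fun w hw => by
        rw [ha, inner_smul_right, hex w hw, mul_zero]
      have hmem : insert a v ∈ {s : Set H | Orthonormal ℂ (Subtype.val : s → H) ∧ s ⊆ eigvecs B} := by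
        refine ⟨?_, ?_⟩
        · refine ⟨?_, ?_⟩
          · rintro ⟨x, rfl | hx⟩
            · exact han
            · exact hvo.1 ⟨x, hx⟩
          · rintro ⟨x, hx⟩ ⟨y, hy⟩ hxy
            change ⟪x, y⟫_ℂ = 0
            have hxy' : x ≠ y := fun h => hxy (Subtype.ext h)
            rcases hx with rfl | hx <;> rcases hy with rfl | hy
            · exact absurd rfl hxy'
            · rw [← inner_conj_symm, hao y hy, map_zero]
            · exact hao x hx
            · exact hvo.2 (i := ⟨x, hx⟩) (j := ⟨y, hy⟩) (fun h => hxy' (congrArg Subtype.val h))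
        · rintro x (rfl | hx)
          · intro b hb
            rcases hg b hb with h | h
            · left; rw [ha, map_smul, h, smul_zero]
            · right; rw [ha, map_smul, h]
          · exact hv.prop.2 hx
      have hav : a ∈ v := hv.le_of_ge hmem (Set.subset_insert a v) (Set.mem_insert a v)
      have := hao a hav
      rw [inner_self_eq_zero] at this
      rw [this, norm_zero] at han
      exact zero_ne_one han
  unfold atomSpace
  have h1 : Submodule.span ℂ (eigvecs B) = Submodule.span ℂ v :=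
    le_antisymm (Submodule.span_le.mpr key) (Submodule.span_mono hv.prop.2)
  rw [h1]

lemma infinite_of_not_compact {B : Set (H →L[ℂ] H)} {v : Set H}
    (hv : v ⊆ eigvecs B) (hsp : atomSpace B = (Submodule.span ℂ v).topologicalClosure)
    {c : H →L[ℂ] H} (hc : c ∈ B) (hcz : c * atomProj B = c) (hnc : ¬ IsCompactOperator c) :
    {g | g ∈ v ∧ c g = g}.Infinite := by
  intro hfin
  apply hnc
  set W : Submodule ℂ H := Submodule.span ℂ {g | g ∈ v ∧ c g = g} with hW
  have hWf : FiniteDimensional ℂ W := FiniteDimensional.span_of_finite ℂ hfin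
  have hWc : IsClosed (W : Set H) := W.closed_of_finiteDimensional
  have h1 : Submodule.span ℂ v ≤ W.comap (c : H →ₗ[ℂ] H) := by
    rw [Submodule.span_le]
    intro g hg
    change c g ∈ W
    rcases hv hg c hc with h | h
    · rw [h]; exact Submodule.zero_mem _
    · rw [h]; exact Submodule.subset_span ⟨hg, h⟩
  have h2 : Set.MapsTo c (Submodule.span ℂ v : Set H) (W : Set H) := fun y hy => h1 hy
  have h3 := h2.closure c.continuous
  rw [hWc.closure_eq, ← Submodule.topologicalClosure_coe, ← hsp] at h3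
  have h4 : ∀ x, c x ∈ W := by
    intro x
    have h5 : c x = c (atomProj B x) := by
      conv_lhs => rw [← hcz]
      rfl
    rw [h5]
    exact h3 (Submodule.starProjection_apply_mem _ _)
  have : ProperSpace W := FiniteDimensional.proper ℂ W
  have h6 : IsCompactOperator (W.subtypeL : W → H) :=
    isCompactOperator_of_locallyCompactSpace_rng W.subtypeL
  have h7 := h6.comp_clm (c.codRestrict W h4)
  exact h7

/-! ### Weak convergence of orthonormal systems -/

lemma orthonormal_weak {ι : Type*} {g : ι → H} (hg : Orthonormal ℂ g) (x : H) :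
    Tendsto (fun i => ⟪x, g i⟫_ℂ) cofinite (𝓝 0) := by
  have h1 := (hg.inner_products_summable x).tendsto_cofinite_zero
  rw [tendsto_zero_iff_norm_tendsto_zero]
  have h3 := (Real.continuous_sqrt.tendsto 0).comp h1
  rw [Real.sqrt_zero] at h3
  refine h3.congr fun i => ?_
  simp only [Function.comp]
  rw [Real.sqrt_sq (norm_nonneg _), ← inner_conj_symm, RCLike.norm_conj]

/-! ### Catching an orthonormal system -/

/-- The block sizes are suitable. -/
structure Sizes (n d : ℕ × ℕ → ℕ) : Prop where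
  eq : ∀ p, n p = (p.1 + 2) * d p
  pos : ∀ p, 1 ≤ d p
  big : ∀ p, (n p : ℝ) * 2 ^ p.2 < (47 / 46) ^ (d p)

section

variable {n : ℕ × ℕ → ℕ} (b : HilbertBasis (Σ p : ℕ × ℕ, Fin (n p)) ℂ H)

lemma sum_mass_le {ι : Type*} {g : ι → H} (hg : Orthonormal ℂ g) (p : ℕ × ℕ) (S : Finset ι) :
    ∑ i ∈ S, mass b p (g i) ≤ n p := by
  unfold mass
  rw [Finset.sum_comm]
  have h1 : ∀ j : Fin (n p), ∑ i ∈ S, ‖⟪b ⟨p, j⟩, g i⟫_ℂ‖ ^ 2 ≤ 1 := by
    intro j
    have h2 := hg.sum_inner_products_le (b ⟨p, j⟩) (s := S)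
    rw [b.orthonormal.1, one_pow] at h2
    refine le_trans (le_of_eq ?_) h2
    refine Finset.sum_congr rfl fun i _ => ?_
    rw [← inner_conj_symm, RCLike.norm_conj]
  calc ∑ j : Fin (n p), ∑ i ∈ S, ‖⟪b ⟨p, j⟩, g i⟫_ℂ‖ ^ 2 ≤ ∑ j : Fin (n p), (1 : ℝ) :=
        Finset.sum_le_sum fun j _ => h1 j
    _ = n p := by simp

lemma heavy_finite {ι : Type*} {g : ι → H} (hg : Orthonormal ℂ g) (p : ℕ × ℕ) {τ : ℝ} (hτ : 0 < τ) :
    {i | τ ≤ mass b p (g i)}.Finite := by
  by_contra hinf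
  obtain ⟨N, hN⟩ := exists_nat_gt ((n p : ℝ) / τ)
  obtain ⟨S, hS, hSc⟩ := Set.Infinite.exists_subset_card_eq hinf N
  have h1 := sum_mass_le b hg p S
  have h2 : ∑ i ∈ S, τ ≤ ∑ i ∈ S, mass b p (g i) := Finset.sum_le_sum fun i hi => hS hi
  rw [Finset.sum_const, nsmul_eq_mul, hSc] at h2
  rw [div_lt_iff₀ hτ] at hN
  linarith

lemma exists_catch {d : ℕ × ℕ → ℕ} (hnd : Sizes n d) {ι : Type*} {g : ι → H} (hg : Orthonormal ℂ g)
    (p : ℕ × ℕ) :
    ∃ w : Fin (d p) → EuclideanSpace ℂ (Fin (n p)), Orthonormal ℂ w ∧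
      ∀ i, (1 / 2 : ℝ) ^ p.2 ≤ mass b p (g i) →
        1 / (8 * ((p.1 : ℝ) + 2)) * mass b p (g i) ≤ ∑ j, ‖⟪w j, coord b p (g i)⟫_ℂ‖ ^ 2 := by
  set τ : ℝ := (1 / 2 : ℝ) ^ p.2 with hτ
  have hτpos : 0 < τ := by positivity
  have hfin := heavy_finite b hg p hτpos
  set S := hfin.toFinset with hS
  have hpos : ∀ i ∈ S, 0 < ‖coord b p (g i)‖ := by
    intro i hi
    have h1 : τ ≤ mass b p (g i) := by simpa [hS] using hi
    rw [← norm_coord_sq] at h1
    by_contra h
    have h2 : ‖coord b p (g i)‖ = 0 := le_antisymm (not_lt.mp h) (norm_nonneg _)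
    rw [h2] at h1
    norm_num at h1
    linarith
  set v : ι → EuclideanSpace ℂ (Fin (n p)) := fun i => ((‖coord b p (g i)‖⁻¹ : ℝ) : ℂ) • coord b p (g i) with hv
  have hvn : ∀ i ∈ S, ‖v i‖ = 1 := by
    intro i hi
    rw [hv]
    change ‖((‖coord b p (g i)‖⁻¹ : ℝ) : ℂ) • coord b p (g i)‖ = 1
    rw [norm_smul, Complex.norm_real, norm_inv, norm_norm, inv_mul_cancel₀ (hpos i hi).ne']
  have hm : (0 : ℝ) < (p.1 : ℝ) + 2 := by positivity
  have hc : 1 / (8 * ((p.1 : ℝ) + 2)) ≤ 1 / 2 := by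
    apply one_div_le_one_div_of_le two_pos
    have : (0 : ℝ) ≤ p.1 := Nat.cast_nonneg _
    linarith
  have hcard : (S.card : ℝ) ≤ n p * 2 ^ p.2 := by
    have h1 := sum_mass_le b hg p S
    have h2 : ∑ i ∈ S, τ ≤ ∑ i ∈ S, mass b p (g i) :=
      Finset.sum_le_sum fun i hi => by simpa [hS] using hi
    rw [Finset.sum_const, nsmul_eq_mul] at h2
    have h3 : (S.card : ℝ) * τ ≤ n p := h2.trans h1
    have h4 : τ * 2 ^ p.2 = 1 := by rw [hτ, ← mul_pow]; norm_num
    calc (S.card : ℝ) = (S.card : ℝ) * τ * 2 ^ p.2 := by rw [mul_assoc, h4, mul_one]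
      _ ≤ n p * 2 ^ p.2 := by gcongr
  have hcount : (S.card : ℝ) * (23 / 24 : ℝ) ^ (d p) <
      Real.exp (-((n p : ℝ) / 6 * (1 / (8 * ((p.1 : ℝ) + 2))))) := by
    have h1 : (n p : ℝ) / 6 * (1 / (8 * ((p.1 : ℝ) + 2))) = (d p : ℝ) * (1 / 48) := by
      rw [hnd.eq p]
      push_cast
      field_simp
      ring
    rw [h1]
    have h2 : Real.exp (-((d p : ℝ) * (1 / 48))) = Real.exp (-(1 / 48)) ^ (d p) := by
      rw [← Real.exp_nat_mul]
      congr 1; ring
    rw [h2]
    have h3 : (47 / 48 : ℝ) ≤ Real.exp (-(1 / 48)) := by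
      have := Real.add_one_le_exp (-(1 / 48 : ℝ))
      linarith
    have h4 : ((47 / 46 : ℝ)) ^ (d p) * (23 / 24) ^ (d p) = (47 / 48) ^ (d p) := by
      rw [← mul_pow]; norm_num
    calc (S.card : ℝ) * (23 / 24 : ℝ) ^ (d p) ≤ (n p * 2 ^ p.2) * (23 / 24 : ℝ) ^ (d p) := by gcongr
      _ < (47 / 46) ^ (d p) * (23 / 24 : ℝ) ^ (d p) := by
          have := hnd.big p
          gcongr
      _ = (47 / 48) ^ (d p) := h4
      _ ≤ Real.exp (-(1 / 48)) ^ (d p) := by gcongr
  obtain ⟨w, hw, hwc⟩ := catch_lemma (n := n p) (E := EuclideanSpace ℂ (Fin (n p))) (by simp) (d := d p)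
    (by rw [hnd.eq p]; nlinarith) S v hvn hc hcount
  refine ⟨w, hw, fun i hi => ?_⟩
  have hiS : i ∈ S := by simpa [hS] using hi
  have h1 := hwc i hiS
  have h2 : ∀ j, ‖⟪w j, v i⟫_ℂ‖ ^ 2 = (‖coord b p (g i)‖ ^ 2)⁻¹ * ‖⟪w j, coord b p (g i)⟫_ℂ‖ ^ 2 := by
    intro j
    rw [hv]
    change ‖⟪w j, ((‖coord b p (g i)‖⁻¹ : ℝ) : ℂ) • coord b p (g i)⟫_ℂ‖ ^ 2 = _
    rw [inner_smul_right, norm_mul, mul_pow, Complex.norm_real, norm_inv, norm_norm, inv_pow]
  rw [Finset.sum_congr rfl fun j _ => h2 j, ← Finset.mul_sum] at h1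
  have h3 := hpos i hiS
  rw [← norm_coord_sq]
  rw [le_inv_mul_iff₀ (by positivity)] at h1
  linarith

/-- mass of `x` in the `m`-th region -/
def rmass (m : ℕ) (x : H) : ℝ := ∑' k, mass b (m, k) x

lemma summable_mass (m : ℕ) (x : H) : Summable fun k => mass b (m, k) x :=
  (hasSum_mass b x).summable.comp_injective (i := fun k => (m, k)) (fun a c h => by simpa using h)

lemma rmass_nonneg (m : ℕ) (x : H) : 0 ≤ rmass b m x := tsum_nonneg fun _ => mass_nonneg b _ x

lemma hasSum_rmass (x : H) : HasSum (fun m => rmass b m x) (‖x‖ ^ 2) :=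
  (hasSum_mass b x).prod_fiberwise fun m => (summable_mass b m x).hasSum

lemma exists_adm_atomic₁ {d : ℕ × ℕ → ℕ} (hnd : Sizes n d) {ι : Type*} {g : ι → H} (hg : Orthonormal ℂ g) :
    ∃ V, Adm b V ∧ ∀ Y : Set ι, Tendsto (fun i : Y => ‖g i - X V (g i)‖) cofinite (𝓝 0) →
      ∀ m, Tendsto (fun i : Y => rmass b m (g i)) cofinite (𝓝 0) := by
  choose w hw hwc using fun p => exists_catch b hnd hg p
  set V : ℕ × ℕ → Submodule ℂ H := fun p => Submodule.span ℂ (Set.range fun j => emb b p (w p j)) with hV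
  have hVle : ∀ p, V p ≤ blk b p := by
    intro p
    rw [hV]
    refine Submodule.span_le.mpr ?_
    rintro _ ⟨j, rfl⟩
    exact emb_mem b p _
  have hadm : Adm b V := by
    refine ⟨hVle, fun t => ?_⟩
    filter_upwards [eventually_ge_atTop t] with m hm
    refine Filter.Eventually.of_forall fun k => ?_
    have h1 : Module.finrank ℂ (V (m, k)) ≤ d (m, k) := by
      have := finrank_range_le_card (R := ℂ) (fun j => emb b (m, k) (w (m, k) j))
      simpa [Set.finrank] using this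
    calc t * Module.finrank ℂ (V (m, k)) ≤ t * d (m, k) := Nat.mul_le_mul_left _ h1
      _ ≤ (m + 2) * d (m, k) := Nat.mul_le_mul_right _ (by omega)
      _ = n (m, k) := (hnd.eq (m, k)).symm
  refine ⟨V, hadm, fun Y hY m => ?_⟩
  -- the orthonormal family of all catching vectors
  have hon : Orthonormal ℂ (fun x : Σ p : ℕ × ℕ, Fin (d p) => emb b x.1 (w x.1 x.2)) := by
    refine ⟨fun x => ?_, ?_⟩
    · have h1 : ⟪emb b x.1 (w x.1 x.2), emb b x.1 (w x.1 x.2)⟫_ℂ = 1 := by
        rw [inner_emb_emb, inner_self_eq_norm_sq_to_K, (hw x.1).1 x.2]; simp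
      rw [inner_self_eq_norm_sq_to_K] at h1
      have h2 : ‖emb b x.1 (w x.1 x.2)‖ ^ 2 = 1 := by
        apply Complex.ofReal_injective
        rw [Complex.ofReal_pow, Complex.ofReal_one]
        exact h1
      exact (pow_eq_one_iff_of_nonneg (norm_nonneg _) two_ne_zero).mp h2
    · rintro ⟨p, j⟩ ⟨q, j'⟩ hne
      by_cases hpq : p = q
      · subst hpq
        change ⟪emb b p (w p j), emb b p (w p j')⟫_ℂ = 0
        rw [inner_emb_emb]
        exact (hw p).2 (fun h => hne (by rw [h]))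
      · exact blk_orth b hpq (emb_mem b p _) (emb_mem b q _)
  have hinner : ∀ (x : Σ p : ℕ × ℕ, Fin (d p)) (y : H),
      ⟪emb b x.1 (w x.1 x.2), y⟫_ℂ = ⟪emb b x.1 (w x.1 x.2), y - X V y⟫_ℂ := by
    intro x y
    have h1 : X V y ∈ (⨆ p, V p)ᗮ := Submodule.starProjection_apply_mem _ _
    rw [mem_K] at h1
    rw [inner_sub_right, h1 x.1 _ (Submodule.subset_span ⟨x.2, rfl⟩), sub_zero]
  set c : ℝ := 1 / (8 * ((m : ℝ) + 2)) with hc
  have hcpos : 0 < c := by rw [hc]; positivity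
  -- the main estimate
  have hmain : ∀ (y : ι) (T : Finset ℕ), c * ∑ k ∈ T, (mass b (m, k) (g y) - (1 / 2 : ℝ) ^ k) ≤
      ‖g y - X V (g y)‖ ^ 2 := by
    intro y T
    have h1 : ∀ k, c * (mass b (m, k) (g y) - (1 / 2 : ℝ) ^ k) ≤
        ∑ j, ‖⟪emb b (m, k) (w (m, k) j), g y⟫_ℂ‖ ^ 2 := by
      intro k
      have h0 : 0 ≤ ∑ j, ‖⟪emb b (m, k) (w (m, k) j), g y⟫_ℂ‖ ^ 2 :=
        Finset.sum_nonneg fun _ _ => by positivity
      by_cases h : (1 / 2 : ℝ) ^ k ≤ mass b (m, k) (g y)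
      · have h2 := hwc (m, k) y h
        simp only at h2
        have h3 : ∑ j, ‖⟪w (m, k) j, coord b (m, k) (g y)⟫_ℂ‖ ^ 2 =
            ∑ j, ‖⟪emb b (m, k) (w (m, k) j), g y⟫_ℂ‖ ^ 2 :=
          Finset.sum_congr rfl fun j _ => by rw [inner_emb]
        rw [h3] at h2
        have h4 : 0 < (1 / 2 : ℝ) ^ k := by positivity
        nlinarith
      · push Not at h
        nlinarith
    rw [Finset.mul_sum]
    refine (Finset.sum_le_sum fun k _ => h1 k).trans ?_
    set T' : Finset (Σ p : ℕ × ℕ, Fin (d p)) :=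
      (T.map ⟨fun k => (m, k), fun a c h => by simpa using h⟩).sigma fun _ => Finset.univ with hT'
    have h2 : ∑ k ∈ T, ∑ j, ‖⟪emb b (m, k) (w (m, k) j), g y⟫_ℂ‖ ^ 2 =
        ∑ x ∈ T', ‖⟪emb b x.1 (w x.1 x.2), g y - X V (g y)⟫_ℂ‖ ^ 2 := by
      rw [hT', Finset.sum_sigma, Finset.sum_map]
      refine Finset.sum_congr rfl fun k _ => Finset.sum_congr rfl fun j _ => ?_
      rw [hinner ⟨(m, k), j⟩]
      rfl
    rw [h2]
    exact hon.sum_inner_products_le _
  -- conclusion
  rw [Metric.tendsto_nhds]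
  intro ε hε
  obtain ⟨K, hK⟩ := exists_pow_lt_of_lt_one (show 0 < ε / 6 by positivity) (show (1 / 2 : ℝ) < 1 by norm_num)
  have ha : Tendsto (fun i : Y => ∑ k ∈ Finset.range K, mass b (m, k) (g i)) cofinite (𝓝 0) := by
    have h1 : ∀ k ∈ Finset.range K, Tendsto (fun i : Y => mass b (m, k) (g i)) cofinite (𝓝 0) := by
      intro k _
      have h2 : ∀ j ∈ (Finset.univ : Finset (Fin (n (m, k)))),
          Tendsto (fun i : Y => ‖⟪b ⟨(m, k), j⟩, g i⟫_ℂ‖ ^ 2) cofinite (𝓝 0) := by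
        intro j _
        have h3 := ((orthonormal_weak hg (b ⟨(m, k), j⟩)).comp
          (Subtype.val_injective (p := fun i => i ∈ Y)).tendsto_cofinite).norm
        have h4 := h3.pow 2
        simpa using h4
      have h5 := tendsto_finsetSum _ h2
      simpa [mass] using h5
    have h6 := tendsto_finsetSum _ h1
    simpa using h6
  have hb : Tendsto (fun i : Y => c⁻¹ * ‖g i - X V (g i)‖ ^ 2) cofinite (𝓝 0) := by
    have h1 := (hY.pow 2).const_mul c⁻¹
    simpa using h1
  filter_upwards [(Metric.tendsto_nhds.mp ha (ε / 3) (by positivity)),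
    (Metric.tendsto_nhds.mp hb (ε / 3) (by positivity))] with i h1 h2
  rw [Real.dist_eq, sub_zero] at h1 h2 ⊢
  rw [abs_of_nonneg (rmass_nonneg b m _)]
  have h1' := (le_abs_self _).trans_lt h1
  have h2' := (le_abs_self _).trans_lt h2
  have h3 : rmass b m (g i) ≤ ε / 3 + ε / 3 + 2 * (1 / 2 : ℝ) ^ K := by
    unfold rmass
    refine (summable_mass b m (g i)).tsum_le_of_sum_range_le fun N => ?_
    have h4 : ∑ k ∈ Finset.range N, mass b (m, k) (g i) ≤
        ∑ k ∈ Finset.range K, mass b (m, k) (g i) + ∑ k ∈ Finset.Ico K (max K N), mass b (m, k) (g i) := by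
      rw [Finset.range_eq_Ico, Finset.range_eq_Ico,
        Finset.sum_Ico_consecutive _ (Nat.zero_le K) (le_max_left K N)]
      refine Finset.sum_le_sum_of_subset_of_nonneg ?_ fun k _ _ => mass_nonneg b _ _
      exact Finset.Ico_subset_Ico le_rfl (le_max_right K N)
    have h5 := hmain i.1 (Finset.Ico K (max K N))
    rw [Finset.sum_sub_distrib] at h5
    have h6 : ∑ k ∈ Finset.Ico K (max K N), (1 / 2 : ℝ) ^ k ≤ 2 * (1 / 2 : ℝ) ^ K := by
      have h7 := geom_sum_Ico_le_of_lt_one (x := (1 / 2 : ℝ)) (m := K) (n := max K N) (by norm_num) (by norm_num)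
      refine h7.trans (le_of_eq ?_)
      norm_num
      ring
    have h8 : ∑ k ∈ Finset.Ico K (max K N), mass b (m, k) (g i) ≤
        c⁻¹ * ‖g i - X V (g i)‖ ^ 2 + 2 * (1 / 2 : ℝ) ^ K := by
      have h9 : ∑ k ∈ Finset.Ico K (max K N), mass b (m, k) (g i) -
          ∑ k ∈ Finset.Ico K (max K N), (1 / 2 : ℝ) ^ k ≤ c⁻¹ * ‖g i - X V (g i)‖ ^ 2 := by
        rw [le_inv_mul_iff₀ hcpos]
        exact h5
      linarith
    linarith
  have : 2 * (1 / 2 : ℝ) ^ K < ε / 3 := by linarith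
  linarith

end

end Pool.Agent.Helper290.Calk
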