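import Pool.Agent.Helper290.Calk.CaseA

set_option autoImplicit false
set_option linter.unusedSectionVars false

/-! # The atomic part: cutting the tails -/

open scoped InnerProductSpace
open Filter Topology

noncomputable section

namespace Pool.Agent.Helper290.Calk

variable {H : Type*} [NormedAddCommGroup H] [InnerProductSpace ℂ H] [CompleteSpace H]

section

variable {n : ℕ × ℕ → ℕ} (b : HilbertBasis (Σ p : ℕ × ℕ, Fin (n p)) ℂ H)

/-- the family of all blocks `(m, k)` with `k < h m` -/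
def cut (h : ℕ → ℕ) : ℕ × ℕ → Submodule ℂ H := fun p => if p.2 < h p.1 then blk b p else ⊥

lemma adm_cut (h : ℕ → ℕ) : Adm b (cut b h) := by
  refine ⟨fun p => ?_, fun t => ?_⟩
  · unfold cut
    split_ifs
    · exact le_rfl
    · exact bot_le
  · refine Filter.Eventually.of_forall fun m => ?_
    filter_upwards [eventually_ge_atTop (h m)] with k hk
    have : cut b h (m, k) = ⊥ := by
      unfold cut
      rw [if_neg]
      simpa using hk
    rw [this, finrank_bot, mul_zero]
    exact Nat.zero_le _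

lemma norm_X_cut_sq_le (h : ℕ → ℕ) (x : H) (T : Finset (ℕ × ℕ)) (hT : ∀ p ∈ T, p.2 < h p.1) :
    ‖X (cut b h) x‖ ^ 2 ≤ ‖x‖ ^ 2 - ∑ p ∈ T, mass b p x := by
  have hpart : X (cut b h) (part b T x) = 0 := by
    unfold X
    rw [Submodule.starProjection_apply_eq_zero_iff, Submodule.mem_orthogonal]
    intro u hu
    unfold part
    rw [inner_sum]
    refine Finset.sum_eq_zero fun p hp => ?_
    rw [mem_K] at hu
    have hpV : comp b p x ∈ cut b h p := by
      unfold cut
      rw [if_pos (hT p hp)]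
      exact comp_mem b p x
    rw [← inner_conj_symm, hu p _ hpV, map_zero]
  have h1 : X (cut b h) x = X (cut b h) (x - part b T x) := by rw [map_sub, hpart, sub_zero]
  have h2 : ‖X (cut b h) x‖ ≤ ‖x - part b T x‖ := by
    rw [h1]; exact sp_norm_le (X_proj _) _
  rw [← norm_sub_part_sq]
  gcongr

lemma exists_adm_atomic₂ {ι : Type*} {g : ι → H} (hg : ∀ i, ‖g i‖ = 1)
    (hr : ∀ m, Tendsto (fun i => rmass b m (g i)) cofinite (𝓝 0)) :
    ∃ V, Adm b V ∧ Tendsto (fun i => ‖X V (g i)‖) cofinite (𝓝 0) := by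
  set S : ℕ → ι → ℝ := fun M i => ∑ m ∈ Finset.range (M + 1), rmass b m (g i) with hS
  have hSt : ∀ M, Tendsto (S M) cofinite (𝓝 0) := by
    intro M
    have := tendsto_finsetSum (Finset.range (M + 1)) fun m _ => hr m
    simpa using this
  set A : ℕ → Set ι := fun M => {i | ∃ M' ≤ M, (1 / 2 : ℝ) ^ M' < S M' i} with hA
  have hAfin : ∀ M, (A M).Finite := by
    intro M
    have h1 : ∀ M', {i | (1 / 2 : ℝ) ^ M' < S M' i}.Finite := by
      intro M'
      have h2 := (hSt M').eventually (gt_mem_nhds (show (0 : ℝ) < (1 / 2) ^ M' by positivity))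
      rw [Filter.eventually_cofinite] at h2
      refine h2.subset fun i hi => ?_
      simp only [Set.mem_ofPred_eq] at hi ⊢
      exact not_lt.mpr hi.le
    refine ((Set.finite_Iic M).biUnion fun M' _ => h1 M').subset ?_
    rintro i ⟨M', hM', hi⟩
    exact Set.mem_biUnion (Set.mem_Iic.mpr hM') hi
  have hh : ∀ M, ∃ K, ∀ i ∈ A M, rmass b M (g i) - ∑ k ∈ Finset.range K, mass b (M, k) (g i) ≤ (1 / 2 : ℝ) ^ M := by
    intro M
    have h1 : ∀ i ∈ A M, ∀ᶠ K in atTop,
        rmass b M (g i) - ∑ k ∈ Finset.range K, mass b (M, k) (g i) ≤ (1 / 2 : ℝ) ^ M := by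
      intro i _
      have h2 := (summable_mass b M (g i)).hasSum.tendsto_sum_nat
      have h3 := (tendsto_const_nhds (x := rmass b M (g i))).sub h2
      have h4 : rmass b M (g i) - ∑' k, mass b (M, k) (g i) = 0 := sub_self _
      rw [h4] at h3
      filter_upwards [h3.eventually (gt_mem_nhds (show (0 : ℝ) < (1 / 2) ^ M by positivity))] with K hK
      exact hK.le
    have h5 := (Filter.eventually_all_finite (hAfin M)).mpr h1
    exact h5.exists
  choose h hh using hh
  refine ⟨cut b h, adm_cut b h, ?_⟩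
  -- every index lies in some `A M`
  have hex : ∀ i, ∃ M, (1 / 2 : ℝ) ^ M < S M i := by
    intro i
    by_contra hcon
    push Not at hcon
    have h1 : Tendsto (fun M => S M i) atTop (𝓝 (‖g i‖ ^ 2)) :=
      ((hasSum_rmass b (g i)).tendsto_sum_nat).comp (tendsto_add_atTop_nat 1)
    have h2 : Tendsto (fun M : ℕ => (1 / 2 : ℝ) ^ M) atTop (𝓝 0) :=
      tendsto_pow_atTop_nhds_zero_of_lt_one (by norm_num) (by norm_num)
    have h3 := le_of_tendsto_of_tendsto' h1 h2 hcon
    rw [hg i] at h3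
    norm_num at h3
  -- the main estimate
  have hmain : ∀ M i, i ∉ A M → ‖X (cut b h) (g i)‖ ^ 2 ≤ 4 * (1 / 2 : ℝ) ^ M := by
    intro M i hi
    classical
    set M₀ := Nat.find (hex i) with hM₀
    have hM₀s : (1 / 2 : ℝ) ^ M₀ < S M₀ i := Nat.find_spec (hex i)
    have hM₀m : ∀ M', M' < M₀ → S M' i ≤ (1 / 2 : ℝ) ^ M' := fun M' hM' =>
      not_lt.mp (Nat.find_min (hex i) hM')
    have hMM₀ : M < M₀ := by
      by_contra hcon
      exact hi ⟨M₀, not_lt.mp hcon, hM₀s⟩
    obtain ⟨P, hP⟩ : ∃ P, M₀ = P + 1 := ⟨M₀ - 1, by omega⟩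
    have hSP : S P i ≤ (1 / 2 : ℝ) ^ P := hM₀m P (by omega)
    set tail : ℕ → ℝ := fun m => rmass b m (g i) - ∑ k ∈ Finset.range (h m), mass b (m, k) (g i) with htail
    have htail1 : ∀ m, tail m ≤ rmass b m (g i) := by
      intro m
      have : 0 ≤ ∑ k ∈ Finset.range (h m), mass b (m, k) (g i) :=
        Finset.sum_nonneg fun _ _ => mass_nonneg b _ _
      simp only [htail]; linarith
    have htail2 : ∀ m, M₀ ≤ m → tail m ≤ (1 / 2 : ℝ) ^ m := fun m hm => hh m i ⟨M₀, hm, hM₀s⟩
    have hN : ∀ N, ∑ m ∈ Finset.range N, tail m ≤ 4 * (1 / 2 : ℝ) ^ M₀ := by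
      intro N
      have e1 : (1 / 2 : ℝ) ^ P = 2 * (1 / 2) ^ (P + 1) := by rw [pow_succ]; ring
      have e2 : ∑ m ∈ Finset.range M₀, rmass b m (g i) ≤ 2 * (1 / 2 : ℝ) ^ M₀ := by
        rw [hP, ← e1]; exact hSP
      set c : ℕ → ℝ := fun m => if m < M₀ then rmass b m (g i) else (1 / 2 : ℝ) ^ m with hc
      have hc0 : ∀ m, 0 ≤ c m := by
        intro m
        simp only [hc]
        split_ifs
        · exact rmass_nonneg b m _
        · positivity
      have hct : ∀ m, tail m ≤ c m := by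
        intro m
        simp only [hc]
        split_ifs with hm
        · exact htail1 m
        · exact htail2 m (not_lt.mp hm)
      have e3 : ∑ m ∈ Finset.range M₀, c m = ∑ m ∈ Finset.range M₀, rmass b m (g i) :=
        Finset.sum_congr rfl fun m hm => if_pos (Finset.mem_range.mp hm)
      have e4 : ∑ m ∈ Finset.Ico M₀ (max M₀ N), c m = ∑ m ∈ Finset.Ico M₀ (max M₀ N), (1 / 2 : ℝ) ^ m :=
        Finset.sum_congr rfl fun m hm => if_neg (not_lt.mpr (Finset.mem_Ico.mp hm).1)
      have e5 : ∑ m ∈ Finset.Ico M₀ (max M₀ N), (1 / 2 : ℝ) ^ m ≤ 2 * (1 / 2 : ℝ) ^ M₀ := by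
        refine (geom_sum_Ico_le_of_lt_one (by norm_num) (by norm_num)).trans (le_of_eq ?_)
        norm_num
        ring
      calc ∑ m ∈ Finset.range N, tail m ≤ ∑ m ∈ Finset.range N, c m := Finset.sum_le_sum fun m _ => hct m
        _ ≤ ∑ m ∈ Finset.range (max M₀ N), c m :=
            Finset.sum_le_sum_of_subset_of_nonneg (Finset.range_mono (le_max_right _ _)) fun m _ _ => hc0 m
        _ = ∑ m ∈ Finset.range M₀, c m + ∑ m ∈ Finset.Ico M₀ (max M₀ N), c m := by
            rw [Finset.range_eq_Ico, Finset.range_eq_Ico,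
              Finset.sum_Ico_consecutive _ (Nat.zero_le _) (le_max_left _ _)]
        _ ≤ _ := by rw [e3, e4]; linarith
    have hle : ∀ N, ‖X (cut b h) (g i)‖ ^ 2 ≤
        (‖g i‖ ^ 2 - ∑ m ∈ Finset.range N, rmass b m (g i)) + 4 * (1 / 2 : ℝ) ^ M₀ := by
      intro N
      set T : Finset (ℕ × ℕ) := ((Finset.range N).sigma fun m => Finset.range (h m)).map
        ⟨fun x => (x.1, x.2), by
          rintro ⟨a, c⟩ ⟨a', c'⟩ heq
          simp only [Prod.mk.injEq] at heq
          obtain ⟨rfl, rfl⟩ := heq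
          rfl⟩ with hT
      have h1 := norm_X_cut_sq_le b h (g i) T (by
        intro p hp
        rw [hT, Finset.mem_map] at hp
        obtain ⟨x, hx, rfl⟩ := hp
        rw [Finset.mem_sigma] at hx
        exact Finset.mem_range.mp hx.2)
      have h2 : ∑ p ∈ T, mass b p (g i) =
          ∑ m ∈ Finset.range N, ∑ k ∈ Finset.range (h m), mass b (m, k) (g i) := by
        rw [hT, Finset.sum_map, Finset.sum_sigma]
        rfl
      have h3 := hN N
      simp only [htail] at h3
      rw [Finset.sum_sub_distrib] at h3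
      rw [h2] at h1
      linarith
    have hlim : Tendsto (fun N => (‖g i‖ ^ 2 - ∑ m ∈ Finset.range N, rmass b m (g i)) + 4 * (1 / 2 : ℝ) ^ M₀)
        atTop (𝓝 (4 * (1 / 2 : ℝ) ^ M₀)) := by
      have h1 := (tendsto_const_nhds (x := ‖g i‖ ^ 2)).sub (hasSum_rmass b (g i)).tendsto_sum_nat
      have h2 := h1.add_const (4 * (1 / 2 : ℝ) ^ M₀)
      rw [sub_self, zero_add] at h2
      exact h2
    have h4 := ge_of_tendsto' hlim hle
    refine h4.trans ?_
    have : (1 / 2 : ℝ) ^ M₀ ≤ (1 / 2) ^ M := pow_le_pow_of_le_one (by norm_num) (by norm_num) hMM₀.le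
    linarith
  -- conclusion
  have hsq : Tendsto (fun i => ‖X (cut b h) (g i)‖ ^ 2) cofinite (𝓝 0) := by
    rw [Metric.tendsto_nhds]
    intro ε hε
    obtain ⟨M, hM⟩ := exists_pow_lt_of_lt_one (show 0 < ε / 4 by positivity) (show (1 / 2 : ℝ) < 1 by norm_num)
    rw [Filter.eventually_cofinite]
    refine (hAfin M).subset fun i hi => ?_
    by_contra hcon
    apply hi
    rw [Real.dist_eq, sub_zero, abs_of_nonneg (by positivity)]
    have := hmain M i hcon
    linarith
  have h5 := (Real.continuous_sqrt.tendsto 0).comp hsq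
  rw [Real.sqrt_zero] at h5
  refine h5.congr fun i => ?_
  simp [Real.sqrt_sq (norm_nonneg _)]

end

end Pool.Agent.Helper290.Calk
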