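import Pool.Agent.Helper290.Calk.Blocks

set_option autoImplicit false
set_option linter.unusedSectionVars false

/-! # The diffuse part -/

open scoped InnerProductSpace
open Filter Topology

noncomputable section

namespace Pool.Agent.Helper290.Calk

variable {H : Type*} [NormedAddCommGroup H] [InnerProductSpace ℂ H] [CompleteSpace H]

section

variable {n : ℕ × ℕ → ℕ} (b : HilbertBasis (Σ p : ℕ × ℕ, Fin (n p)) ℂ H)

/-- component of `x` in the block `p` -/
def comp (p : ℕ × ℕ) (x : H) : H := emb b p (coord b p x)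

lemma comp_mem (p : ℕ × ℕ) (x : H) : comp b p x ∈ blk b p := emb_mem b p _

lemma inner_comp (p : ℕ × ℕ) (x y : H) : ⟪comp b p x, y⟫_ℂ = ⟪coord b p x, coord b p y⟫_ℂ := inner_emb b p _ _

lemma inner_comp_self (p : ℕ × ℕ) (x : H) : ⟪comp b p x, x⟫_ℂ = (mass b p x : ℂ) := by
  rw [inner_comp, inner_self_eq_norm_sq_to_K, ← norm_coord_sq]
  push_cast; rfl

/-- partial sum of `x` over a finite set of blocks -/
def part (T : Finset (ℕ × ℕ)) (x : H) : H := ∑ p ∈ T, comp b p x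

lemma inner_part (T : Finset (ℕ × ℕ)) (x y : H) : ⟪part b T x, y⟫_ℂ = ⟪part b T x, part b T y⟫_ℂ := by
  unfold part
  rw [sum_inner, sum_inner]
  refine Finset.sum_congr rfl fun p hp => ?_
  rw [inner_sum, Finset.sum_eq_single p]
  · rw [inner_comp, inner_comp]
    congr 1
    rw [comp, coord_emb]
  · intro q _ hq
    exact blk_orth b hq.symm (comp_mem b p x) (comp_mem b q y)
  · intro h; exact absurd hp h

lemma inner_part_self (T : Finset (ℕ × ℕ)) (x : H) : ⟪part b T x, x⟫_ℂ = ((∑ p ∈ T, mass b p x : ℝ) : ℂ) := by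
  unfold part
  rw [sum_inner]
  push_cast
  exact Finset.sum_congr rfl fun p _ => inner_comp_self b p x

lemma norm_part_sq (T : Finset (ℕ × ℕ)) (x : H) : ‖part b T x‖ ^ 2 = ∑ p ∈ T, mass b p x := by
  have h := inner_part_self b T x
  rw [inner_part, inner_self_eq_norm_sq_to_K] at h
  refine Complex.ofReal_injective ?_
  rw [← h]
  push_cast
  rfl

lemma norm_sub_part_sq (T : Finset (ℕ × ℕ)) (x : H) : ‖x - part b T x‖ ^ 2 = ‖x‖ ^ 2 - ∑ p ∈ T, mass b p x := by
  rw [norm_sub_sq (𝕜 := ℂ), norm_part_sq, ← inner_conj_symm, inner_part_self]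
  simp
  ring

lemma norm_inner_le (T : Finset (ℕ × ℕ)) (h g : H) :
    ‖⟪h, g⟫_ℂ‖ ≤ ‖h‖ * Real.sqrt (∑ p ∈ T, mass b p g) + ‖h - part b T h‖ * ‖g‖ := by
  have e : ⟪h, g⟫_ℂ = ⟪part b T h, part b T g⟫_ℂ + ⟪h - part b T h, g⟫_ℂ := by
    rw [← inner_part, ← inner_add_left, add_sub_cancel]
  rw [e]
  refine (norm_add_le _ _).trans (add_le_add ?_ (norm_inner_le_norm _ _))
  refine (norm_inner_le_norm _ _).trans ?_
  have h1 : ‖part b T h‖ ≤ ‖h‖ := by
    have : ‖part b T h‖ ^ 2 ≤ ‖h‖ ^ 2 := by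
      have := norm_sub_part_sq b T h
      rw [norm_part_sq]
      nlinarith [sq_nonneg ‖h - part b T h‖]
    exact le_of_sq_le_sq this (norm_nonneg _)
  have h2 : ‖part b T g‖ = Real.sqrt (∑ p ∈ T, mass b p g) := by
    rw [← norm_part_sq, Real.sqrt_sq (norm_nonneg _)]
  rw [h2]
  gcongr

/-- the first `N` blocks -/
def firstBlocks (N : ℕ) : Finset (ℕ × ℕ) := (Finset.range N).map Nat.pairEquiv.symm.toEmbedding

lemma tendsto_firstBlocks (x : H) :
    Tendsto (fun N => ∑ p ∈ firstBlocks N, mass b p x) atTop (𝓝 (‖x‖ ^ 2)) := by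
  have h := (Nat.pairEquiv.symm.hasSum_iff.mpr (hasSum_mass b x)).tendsto_sum_nat
  refine h.congr fun N => ?_
  unfold firstBlocks
  rw [Finset.sum_map]
  rfl

lemma firstBlocks_mono {N N' : ℕ} (h : N ≤ N') : firstBlocks N ⊆ firstBlocks N' := by
  unfold firstBlocks
  exact Finset.map_subset_map.mpr (Finset.range_mono h)

lemma mem_firstBlocks {N : ℕ} {p : ℕ × ℕ} : p ∈ firstBlocks N ↔ Nat.pairEquiv p < N := by
  unfold firstBlocks
  rw [Finset.mem_map]
  constructor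
  · rintro ⟨j, hj, rfl⟩
    rw [Equiv.coe_toEmbedding, Equiv.apply_symm_apply]
    exact Finset.mem_range.mp hj
  · intro h
    exact ⟨Nat.pairEquiv p, Finset.mem_range.mpr h, Equiv.symm_apply_apply _ _⟩

/-- The key lemma for the diffuse part: a flat vector far out. -/
lemma exists_flat {B : Set (H →L[ℂ] H)} (hB : IsMaxComm B) {q : H →L[ℂ] H} (hq : q ∈ B)
    (hz : q * atomProj B = 0) {ξ : H} (hξ : q ξ ≠ 0) (N : ℕ) {ε : ℝ} (hε : 0 < ε) :
    ∃ f : H, ‖f‖ = 1 ∧ (∀ c ∈ B, ‖f - c f‖ = ‖q ξ - c (q ξ)‖ / ‖q ξ‖) ∧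
      ∑ p ∈ firstBlocks N, mass b p f ≤ ε := by
  have hqn : 0 < ‖q ξ‖ := norm_pos_iff.mpr hξ
  set s : Finset (Σ p : ℕ × ℕ, Fin (n p)) := (firstBlocks N).sigma fun _ => Finset.univ with hs
  have hrho : ∀ x, rho s b x = ∑ p ∈ firstBlocks N, mass b p x := by
    intro x
    unfold rho mass
    rw [hs, Finset.sum_sigma]
  set δ : ℝ := Real.sqrt (ε * ‖q ξ‖ ^ 2 / (s.card + 1)) with hδ
  have hδpos : 0 < δ := by rw [hδ]; positivity
  have hδsq : δ ^ 2 * (s.card + 1) = ε * ‖q ξ‖ ^ 2 := by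
    rw [hδ, Real.sq_sqrt (by positivity)]
    field_simp
  obtain ⟨c, hc, hcq, hcr⟩ := good_of_atomless (s := s) (e := b) (η := ξ) hB hδpos hq hz
  set x := (2 : ℂ) • c ξ - q ξ with hx
  have happ : ∀ (S T : H →L[ℂ] H), S * T = T * S → ∀ y, S (T y) = T (S y) := fun S T h y =>
    congrArg (fun U : H →L[ℂ] H => U y) h
  have hcq' : ∀ y, c (q y) = c y := fun y => congrArg (fun U : H →L[ℂ] H => U y) hcq
  -- the symmetry `2c-1` is isometric
  have hiso : ∀ y : H, ‖(2 : ℂ) • c y - y‖ = ‖y‖ := by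
    intro y
    have h1 : ‖(2 : ℂ) • c y - y‖ ^ 2 = ‖y‖ ^ 2 := by
      rw [norm_sub_sq (𝕜 := ℂ), norm_smul, inner_smul_left, sp_inner_self (hB.proj c hc)]
      have h2 : RCLike.re ((starRingEnd ℂ) 2 * ((‖c y‖ : ℂ) ^ 2)) = 2 * ‖c y‖ ^ 2 := by
        have : (starRingEnd ℂ) 2 * ((‖c y‖ : ℂ) ^ 2) = ((2 * ‖c y‖ ^ 2 : ℝ) : ℂ) := by
          rw [map_ofNat]
          push_cast
          rfl
        rw [this]
        exact Complex.ofReal_re _
      rw [h2]
      have h3 : ‖(2 : ℂ)‖ = 2 := by simp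
      rw [h3]; ring
    exact (pow_left_inj₀ (norm_nonneg _) (norm_nonneg _) two_ne_zero).mp h1
  have hxq : x = (2 : ℂ) • c (q ξ) - q ξ := by rw [hx, hcq']
  have hxn : ‖x‖ = ‖q ξ‖ := by rw [hxq]; exact hiso _
  refine ⟨((‖q ξ‖⁻¹ : ℝ) : ℂ) • x, ?_, ?_, ?_⟩
  · rw [norm_smul, Complex.norm_real, norm_inv, norm_norm, hxn, inv_mul_cancel₀ hqn.ne']
  · intro d hd
    rw [map_smul, ← smul_sub, norm_smul, Complex.norm_real, norm_inv, norm_norm]
    have h1 : x - d x = (2 : ℂ) • c (q ξ - d (q ξ)) - (q ξ - d (q ξ)) := by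
      rw [hxq, map_sub, map_smul, map_sub, happ d c (hB.comm d hd c hc), smul_sub]
      abel
    rw [h1, hiso, div_eq_inv_mul]
  · have h1 : ∀ p, mass b p (((‖q ξ‖⁻¹ : ℝ) : ℂ) • x) = (‖q ξ‖ ^ 2)⁻¹ * mass b p x := by
      intro p
      unfold mass
      rw [Finset.mul_sum]
      refine Finset.sum_congr rfl fun i _ => ?_
      rw [inner_smul_right, norm_mul, mul_pow, Complex.norm_real, norm_inv, norm_norm, inv_pow]
    rw [Finset.sum_congr rfl fun p _ => h1 p, ← Finset.mul_sum, ← hrho]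
    have h2 : ∑ i ∈ s, ‖q (b i)‖ ^ 2 ≤ s.card + 1 := by
      have : ∑ i ∈ s, ‖q (b i)‖ ^ 2 ≤ ∑ i ∈ s, (1 : ℝ) := by
        refine Finset.sum_le_sum fun i _ => ?_
        have := sp_norm_le (hB.proj q hq) (b i)
        rw [b.orthonormal.1 i] at this
        nlinarith [norm_nonneg (q (b i))]
      rw [Finset.sum_const, nsmul_eq_mul, mul_one] at this
      linarith
    have h3 : rho s b x ≤ ε * ‖q ξ‖ ^ 2 := by
      rw [← hδsq]
      refine hcr.trans ?_
      gcongr
    rw [inv_mul_le_iff₀ (by positivity)]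
    linarith

/-- a sequence which is strongly dense in a given set of operators, tested on a sequence of vectors -/
lemma exists_dense_ops [TopologicalSpace.SeparableSpace H] (ξ : ℕ → H) (D : Set (H →L[ℂ] H)) (hD : D.Nonempty) :
    ∃ Q : ℕ → (H →L[ℂ] H), (∀ i, Q i ∈ D) ∧
      ∀ c ∈ D, ∀ j, ∀ ε > 0, ∃ i, ‖Q i (ξ j) - c (ξ j)‖ < ε := by
  have : SecondCountableTopology H := UniformSpace.secondCountable_of_separable H
  set S : Set (ℕ → H) := (fun c : H →L[ℂ] H => fun j => c (ξ j)) '' D with hS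
  have hne : Nonempty S := (hD.image _).to_subtype
  obtain ⟨s, hs⟩ := TopologicalSpace.exists_dense_seq S
  have hex : ∀ i, ∃ c ∈ D, (fun j => c (ξ j)) = (s i).1 := fun i => (s i).2
  choose Q hQ hQs using hex
  refine ⟨Q, hQ, fun c hc j ε hε => ?_⟩
  have hopen : IsOpen {f : S | ‖f.1 j - c (ξ j)‖ < ε} := by
    refine isOpen_lt ?_ continuous_const
    exact (((continuous_apply j).comp continuous_subtype_val).sub continuous_const).norm
  obtain ⟨i, hi⟩ := DenseRange.exists_mem_open hs hopen ⟨⟨_, c, hc, rfl⟩, by simpa using hε⟩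
  refine ⟨i, ?_⟩
  have hi' : ‖(s i).1 j - c (ξ j)‖ < ε := hi
  rw [← hQs i] at hi'
  exact hi'

/-- **Diffuse part.** There is an admissible family whose projection lies above no nonzero member of
`B` below the complement of the atomic part. -/
lemma exists_adm_diffuse [TopologicalSpace.SeparableSpace H] (hn : ∀ m k, m ≤ n (m, k))
    {B : Set (H →L[ℂ] H)} (hB : IsMaxComm B) :
    ∃ V, Adm b V ∧ ∀ c ∈ B, c * atomProj B = 0 → c ≠ 0 →
      ¬ IsCompactOperator (c - c * X V : H →L[ℂ] H) := by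
  obtain ⟨ξ, hξ⟩ := TopologicalSpace.exists_dense_seq H
  obtain ⟨Q, hQ, hQd⟩ := exists_dense_ops ξ {c | c ∈ B ∧ c * atomProj B = 0} ⟨0, hB.zero, by simp⟩
  -- the step of the recursion
  have hstep : ∀ k N : ℕ, ∃ f : H, ∃ N' : ℕ, N < N' ∧
      (Q (Nat.unpair (Nat.unpair k).1).1 (ξ (Nat.unpair (Nat.unpair k).1).2) ≠ 0 →
        ‖f‖ = 1 ∧ (∀ c ∈ B, ‖f - c f‖ =
          ‖Q (Nat.unpair (Nat.unpair k).1).1 (ξ (Nat.unpair (Nat.unpair k).1).2) -
            c (Q (Nat.unpair (Nat.unpair k).1).1 (ξ (Nat.unpair (Nat.unpair k).1).2))‖ /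
            ‖Q (Nat.unpair (Nat.unpair k).1).1 (ξ (Nat.unpair (Nat.unpair k).1).2)‖) ∧
        ∑ p ∈ firstBlocks N, mass b p f ≤ 1 / ((k : ℝ) + 1)) ∧
      ‖f‖ ^ 2 - ∑ p ∈ firstBlocks N', mass b p f < 1 / ((k : ℝ) + 1) := by
    intro k N
    have hpos : (0 : ℝ) < 1 / ((k : ℝ) + 1) := by positivity
    have hN' : ∀ f : H, ∃ N', N < N' ∧ ‖f‖ ^ 2 - ∑ p ∈ firstBlocks N', mass b p f < 1 / ((k : ℝ) + 1) := by
      intro f
      have h1 := tendsto_firstBlocks b f
      have h2 : Tendsto (fun N => ‖f‖ ^ 2 - ∑ p ∈ firstBlocks N, mass b p f) atTop (𝓝 0) := by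
        have := (tendsto_const_nhds (x := ‖f‖ ^ 2)).sub h1
        rwa [sub_self] at this
      obtain ⟨N', hN'⟩ := ((h2.eventually (gt_mem_nhds hpos)).and (eventually_gt_atTop N)).exists
      exact ⟨N', hN'.2, hN'.1⟩
    by_cases h : Q (Nat.unpair (Nat.unpair k).1).1 (ξ (Nat.unpair (Nat.unpair k).1).2) = 0
    · obtain ⟨N', h1, h2⟩ := hN' 0
      exact ⟨0, N', h1, fun h' => absurd h h', h2⟩
    · obtain ⟨f, hf1, hf2, hf3⟩ := exists_flat b hB (hQ _).1 (hQ _).2 h N hpos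
      obtain ⟨N', h1, h2⟩ := hN' f
      exact ⟨f, N', h1, fun _ => ⟨hf1, hf2, hf3⟩, h2⟩
  choose ff NN hNN hff htail using hstep
  set N : ℕ → ℕ := fun k => Nat.rec 0 (fun k N => NN k N) k with hN
  have hNs : ∀ k, N (k + 1) = NN k (N k) := fun k => rfl
  have hmono : StrictMono N := strictMono_nat_of_lt_succ fun k => by rw [hNs]; exact hNN _ _
  set f : ℕ → H := fun k => ff k (N k) with hf
  have hNk : ∀ k, k ≤ N k := hmono.id_le
  -- the index of the window of a block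
  set κ : ℕ → ℕ := fun j => Nat.findGreatest (fun k => N k ≤ j) j with hκ
  have hκspec : ∀ k j, N k ≤ j → j < N (k + 1) → κ j = k := by
    intro k j h1 h2
    have h3 : k ≤ κ j := Nat.le_findGreatest ((hNk k).trans h1) h1
    have h4 : N (κ j) ≤ j := by
      have : N 0 ≤ j := by simp [hN]
      exact Nat.findGreatest_spec (P := fun k => N k ≤ j) (Nat.zero_le j) this
    by_contra hne
    have h5 : k + 1 ≤ κ j := by omega
    have := hmono.monotone h5
    omega
  set V : ℕ × ℕ → Submodule ℂ H := fun p =>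
    Submodule.span ℂ {comp b p (f (κ (Nat.pairEquiv p)))} with hV
  have hVle : ∀ p, V p ≤ blk b p := by
    intro p
    rw [hV]
    refine (Submodule.span_le).mpr ?_
    rintro _ rfl
    exact comp_mem b p _
  have hadm : Adm b V := by
    refine ⟨hVle, fun t => ?_⟩
    filter_upwards [eventually_ge_atTop t] with m hm
    refine Filter.Eventually.of_forall fun k => ?_
    have h1 : Module.finrank ℂ (V (m, k)) ≤ 1 := by
      have := finrank_span_le_card (R := ℂ) ({comp b (m, k) (f (κ (Nat.pairEquiv (m, k))))} : Set H)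
      simpa using this
    calc t * Module.finrank ℂ (V (m, k)) ≤ t * 1 := Nat.mul_le_mul_left _ h1
      _ ≤ n (m, k) := by rw [mul_one]; exact hm.trans (hn m k)
  refine ⟨V, hadm, fun c hc hcz hc0 hcomp => ?_⟩
  -- `X V (f k)` is small
  have hXf : ∀ k, (Q (Nat.unpair (Nat.unpair k).1).1 (ξ (Nat.unpair (Nat.unpair k).1).2) ≠ 0) →
      ‖X V (f k)‖ ^ 2 ≤ 2 / ((k : ℝ) + 1) := by
    intro k hk
    set T : Finset (ℕ × ℕ) := firstBlocks (N (k + 1)) \ firstBlocks (N k) with hT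
    have hsub : firstBlocks (N k) ⊆ firstBlocks (N (k + 1)) := firstBlocks_mono (hmono.monotone (Nat.le_succ k))
    have hpart : X V (part b T (f k)) = 0 := by
      unfold X
      rw [Submodule.starProjection_apply_eq_zero_iff, Submodule.mem_orthogonal]
      intro u hu
      unfold part
      rw [inner_sum]
      refine Finset.sum_eq_zero fun p hp => ?_
      rw [mem_K] at hu
      have hpV : comp b p (f k) ∈ V p := by
        have h1 : κ (Nat.pairEquiv p) = k := by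
          rw [hT, Finset.mem_sdiff, mem_firstBlocks, mem_firstBlocks] at hp
          exact hκspec k _ (by omega) hp.1
        change comp b p (f k) ∈ Submodule.span ℂ {comp b p (f (κ (Nat.pairEquiv p)))}
        rw [h1]
        exact Submodule.mem_span_singleton_self _
      rw [← inner_conj_symm, hu p _ hpV, map_zero]
    have h1 : X V (f k) = X V (f k - part b T (f k)) := by rw [map_sub, hpart, sub_zero]
    have h2 : ‖X V (f k)‖ ≤ ‖f k - part b T (f k)‖ := by
      rw [h1]; exact sp_norm_le (X_proj V) _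
    have h3 := norm_sub_part_sq b T (f k)
    have h4 : ∑ p ∈ T, mass b p (f k) = ∑ p ∈ firstBlocks (N (k + 1)), mass b p (f k) -
        ∑ p ∈ firstBlocks (N k), mass b p (f k) := by
      rw [hT, ← Finset.sum_sdiff hsub]; ring
    have h5 := (hff k (N k) hk).2.2
    have h6 := htail k (N k)
    calc ‖X V (f k)‖ ^ 2 ≤ ‖f k - part b T (f k)‖ ^ 2 := by gcongr
      _ = ‖f k‖ ^ 2 - ∑ p ∈ firstBlocks (N (k + 1)), mass b p (f k) +
          ∑ p ∈ firstBlocks (N k), mass b p (f k) := by rw [h3, h4]; ring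
      _ ≤ 1 / ((k : ℝ) + 1) + 1 / ((k : ℝ) + 1) := add_le_add h6.le h5
      _ = 2 / ((k : ℝ) + 1) := by ring
  -- choose a vector on which `c` does not vanish
  obtain ⟨j, hj⟩ : ∃ j, c (ξ j) ≠ 0 := by
    by_contra h
    push Not at h
    refine hc0 (ContinuousLinearMap.ext fun x => ?_)
    have : Set.EqOn c (0 : H →L[ℂ] H) (Set.range ξ) := by
      rintro _ ⟨j, rfl⟩; simpa using h j
    exact congrFun (Continuous.ext_on hξ c.continuous (0 : H →L[ℂ] H).continuous this) x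
  have hcj : 0 < ‖c (ξ j)‖ := norm_pos_iff.mpr hj
  have hex : ∀ r : ℕ, ∃ i, ‖Q i (ξ j) - c (ξ j)‖ < ‖c (ξ j)‖ / (2 * ((r : ℝ) + 1)) := fun r =>
    hQd c ⟨hc, hcz⟩ j _ (by positivity)
  choose i hi using hex
  set k : ℕ → ℕ := fun r => Nat.pair (Nat.pair (i r) j) r with hk
  have hk1 : ∀ r, (Nat.unpair (Nat.unpair (k r)).1).1 = i r := fun r => by simp [hk]
  have hk2 : ∀ r, (Nat.unpair (Nat.unpair (k r)).1).2 = j := fun r => by simp [hk]
  have hkr : ∀ r, r ≤ k r := fun r => Nat.right_le_pair _ _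
  have hktop : Tendsto k atTop atTop := tendsto_atTop_mono hkr tendsto_id
  have hdiff : ∀ r, ‖Q (i r) (ξ j) - c (ξ j)‖ < ‖c (ξ j)‖ / 2 := by
    intro r
    refine (hi r).trans_le ?_
    apply div_le_div_of_nonneg_left hcj.le two_pos
    have : (0 : ℝ) ≤ r := Nat.cast_nonneg r
    linarith
  have hQge : ∀ r, ‖c (ξ j)‖ / 2 ≤ ‖Q (i r) (ξ j)‖ := by
    intro r
    have h1 := hdiff r
    have h2 : ‖c (ξ j)‖ ≤ ‖Q (i r) (ξ j)‖ + ‖Q (i r) (ξ j) - c (ξ j)‖ := by
      calc ‖c (ξ j)‖ = ‖Q (i r) (ξ j) - (Q (i r) (ξ j) - c (ξ j))‖ := by rw [sub_sub_cancel]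
        _ ≤ _ := norm_sub_le _ _
    linarith
  have hQne : ∀ r, Q (Nat.unpair (Nat.unpair (k r)).1).1 (ξ (Nat.unpair (Nat.unpair (k r)).1).2) ≠ 0 := by
    intro r
    rw [hk1, hk2]
    have := hQge r
    exact norm_pos_iff.mp (by linarith)
  set g : ℕ → H := fun r => f (k r) with hg
  have hgn : ∀ r, ‖g r‖ = 1 := fun r => (hff _ _ (hQne r)).1
  have hgc : ∀ r, ‖g r - c (g r)‖ ≤ 1 / ((r : ℝ) + 1) := by
    intro r
    have h1 := (hff _ (N (k r)) (hQne r)).2.1 c hc
    rw [hk1, hk2] at h1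
    have h2 : Q (i r) (ξ j) - c (Q (i r) (ξ j)) =
        (Q (i r) (ξ j) - c (ξ j)) - c (Q (i r) (ξ j) - c (ξ j)) := by
      rw [map_sub, sp_idem (hB.proj c hc)]; abel
    have h3 : ‖Q (i r) (ξ j) - c (Q (i r) (ξ j))‖ ≤ ‖Q (i r) (ξ j) - c (ξ j)‖ := by
      rw [h2]
      have h4 := sp_norm_sq (hB.proj c hc) (Q (i r) (ξ j) - c (ξ j))
      refine le_of_sq_le_sq ?_ (norm_nonneg _)
      nlinarith [sq_nonneg ‖c (Q (i r) (ξ j) - c (ξ j))‖]
    have h5 := hQge r
    have h6 : 0 < ‖Q (i r) (ξ j)‖ := by linarith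
    change ‖ff (k r) (N (k r)) - c (ff (k r) (N (k r)))‖ ≤ _
    rw [h1, div_le_iff₀ h6]
    have h7 : ‖c (ξ j)‖ / (2 * ((r : ℝ) + 1)) ≤ 1 / ((r : ℝ) + 1) * ‖Q (i r) (ξ j)‖ := by
      have : ‖c (ξ j)‖ / (2 * ((r : ℝ) + 1)) = 1 / ((r : ℝ) + 1) * (‖c (ξ j)‖ / 2) := by
        field_simp
      rw [this]
      gcongr
    linarith [hi r]
  have hone : Tendsto (fun r : ℕ => 1 / ((r : ℝ) + 1)) atTop (𝓝 0) := tendsto_one_div_add_atTop_nhds_zero_nat
  have h1 : Tendsto (fun r => ‖g r - c (g r)‖) atTop (𝓝 0) :=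
    squeeze_zero (fun _ => norm_nonneg _) hgc hone
  have h2 : Tendsto (fun r => ‖X V (g r)‖) atTop (𝓝 0) := by
    have h3 : Tendsto (fun r => ‖X V (g r)‖ ^ 2) atTop (𝓝 0) := by
      refine squeeze_zero (fun _ => by positivity) (fun r => hXf (k r) (hQne r)) ?_
      have h4 : Tendsto (fun k : ℕ => 2 / ((k : ℝ) + 1)) atTop (𝓝 0) := by
        have := hone.const_mul 2
        simp only [mul_zero] at this
        refine this.congr fun r => ?_
        ring
      exact h4.comp hktop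
    have h5 := (Real.continuous_sqrt.tendsto 0).comp h3
    rw [Real.sqrt_zero] at h5
    refine h5.congr fun r => ?_
    simp [Real.sqrt_sq (norm_nonneg _)]
  -- weak convergence to zero
  have hweak : ∀ h : H, Tendsto (fun r => ⟪h, g r⟫_ℂ) atTop (𝓝 0) := by
    intro h
    rw [tendsto_zero_iff_norm_tendsto_zero, Metric.tendsto_atTop]
    intro ε hε
    obtain ⟨M, hM⟩ := (((tendsto_firstBlocks b h).eventually
      (lt_mem_nhds (show ‖h‖ ^ 2 - (ε / 2) ^ 2 < ‖h‖ ^ 2 by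
        have : 0 < (ε / 2) ^ 2 := by positivity
        linarith)))).exists
    have hM2 : ‖h - part b (firstBlocks M) h‖ < ε / 2 := by
      refine lt_of_pow_lt_pow_left₀ 2 (by positivity) ?_
      rw [norm_sub_part_sq]; linarith
    obtain ⟨R, hR⟩ : ∃ R : ℕ, ∀ r ≥ R, 1 / ((r : ℝ) + 1) < (ε / (2 * (‖h‖ + 1))) ^ 2 := by
      have := Metric.tendsto_atTop.mp hone ((ε / (2 * (‖h‖ + 1))) ^ 2) (by positivity)
      obtain ⟨R, hR⟩ := this
      refine ⟨R, fun r hr => ?_⟩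
      have := hR r hr
      rw [Real.dist_eq, sub_zero] at this
      exact (le_abs_self _).trans_lt this
    refine ⟨max R M, fun r hr => ?_⟩
    rw [Real.dist_eq, sub_zero, abs_of_nonneg (norm_nonneg _)]
    have h3 := norm_inner_le b (firstBlocks M) h (g r)
    rw [hgn r, mul_one] at h3
    have h4 : ∑ p ∈ firstBlocks M, mass b p (g r) ≤ (ε / (2 * (‖h‖ + 1))) ^ 2 := by
      have h5 : ∑ p ∈ firstBlocks M, mass b p (g r) ≤ ∑ p ∈ firstBlocks (N (k r)), mass b p (g r) := by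
        refine Finset.sum_le_sum_of_subset_of_nonneg (firstBlocks_mono ?_) fun p _ _ => mass_nonneg b p _
        exact (le_max_right R M).trans (hr.trans ((hkr r).trans (hNk _)))
      have h6 := (hff _ (N (k r)) (hQne r)).2.2
      have h7 : 1 / (((k r : ℕ) : ℝ) + 1) ≤ 1 / ((r : ℝ) + 1) := by
        apply one_div_le_one_div_of_le (by positivity)
        have : (r : ℝ) ≤ (k r : ℕ) := by exact_mod_cast hkr r
        linarith
      have h8 := hR r ((le_max_left R M).trans hr)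
      exact h5.trans (h6.trans (h7.trans h8.le))
    have h5 : Real.sqrt (∑ p ∈ firstBlocks M, mass b p (g r)) ≤ ε / (2 * (‖h‖ + 1)) := by
      rw [← Real.sqrt_sq (show 0 ≤ ε / (2 * (‖h‖ + 1)) by positivity)]
      exact Real.sqrt_le_sqrt h4
    have h6 : ‖h‖ * Real.sqrt (∑ p ∈ firstBlocks M, mass b p (g r)) ≤ ε / 2 := by
      calc ‖h‖ * Real.sqrt (∑ p ∈ firstBlocks M, mass b p (g r)) ≤ ‖h‖ * (ε / (2 * (‖h‖ + 1))) := by gcongr
        _ ≤ (‖h‖ + 1) * (ε / (2 * (‖h‖ + 1))) := by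
            gcongr
            linarith
        _ = ε / 2 := by field_simp
    linarith
  have hcomp2 : IsCompactOperator (c - X V * c : H →L[ℂ] H) := by
    have h3 := isCompact_adjoint hcomp
    rw [star_sub, star_mul, (hB.proj c hc).isSelfAdjoint.star_eq, (X_proj V).isSelfAdjoint.star_eq] at h3
    exact h3
  have h3 := tendsto_of_compact hcomp2 (l := atTop) (f := g) ⟨1, fun r => (hgn r).le⟩ hweak
  have h4 : Tendsto (fun r => ‖g r - c (g r)‖ + ‖(c - X V * c : H →L[ℂ] H) (g r)‖ + ‖g r - c (g r)‖ +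
      ‖X V (g r)‖) atTop (𝓝 0) := by
    have := ((h1.add h3).add h1).add h2
    simpa using this
  have h5 : Tendsto (fun _ : ℕ => (1 : ℝ)) atTop (𝓝 0) := by
    refine squeeze_zero (fun _ => zero_le_one) (fun r => ?_) h4
    rw [← hgn r]
    have e : g r = (g r - c (g r)) + (c - X V * c : H →L[ℂ] H) (g r) - X V (g r - c (g r)) + X V (g r) := by
      rw [sub_apply, mul_apply_eq_comp, map_sub]
      abel
    calc ‖g r‖ = ‖(g r - c (g r)) + (c - X V * c : H →L[ℂ] H) (g r) - X V (g r - c (g r)) + X V (g r)‖ := by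
          rw [← e]
      _ ≤ ‖g r - c (g r)‖ + ‖(c - X V * c : H →L[ℂ] H) (g r)‖ + ‖X V (g r - c (g r))‖ + ‖X V (g r)‖ := by
          refine (norm_add_le _ _).trans (add_le_add_left ((norm_sub_le _ _).trans
            (add_le_add_left (norm_add_le _ _) _)) _)
      _ ≤ _ := by
          have := sp_norm_le (X_proj V) (g r - c (g r))
          gcongr
  exact one_ne_zero (tendsto_nhds_unique tendsto_const_nhds h5)

end

end Pool.Agent.Helper290.Calk
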