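import Pool.Agent.Helper290.Calk.Basic

set_option autoImplicit false

/-! # Maximal commuting families of projections -/

open scoped InnerProductSpace
open Filter Topology

noncomputable section

namespace Pool.Agent.Helper290.Calk

variable {H : Type*} [NormedAddCommGroup H] [InnerProductSpace ℂ H] [CompleteSpace H]

/-! ### Elementary facts on projections of `B(H)` -/

section SP

variable {b c : H →L[ℂ] H}

lemma sp_inner (hb : IsStarProjection b) (x y : H) : ⟪b x, y⟫_ℂ = ⟪x, b y⟫_ℂ := by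
  have h := hb.isSelfAdjoint.star_eq
  conv_lhs => rw [← h]
  rw [ContinuousLinearMap.star_eq_adjoint, ContinuousLinearMap.adjoint_inner_left]

lemma sp_idem (hb : IsStarProjection b) (x : H) : b (b x) = b x := by
  have h := hb.isIdempotentElem
  have := congrArg (fun T : H →L[ℂ] H => T x) h
  simpa using this

lemma sp_inner_self (hb : IsStarProjection b) (x : H) : ⟪b x, x⟫_ℂ = (‖b x‖ : ℂ) ^ 2 := by
  calc ⟪b x, x⟫_ℂ = ⟪b (b x), x⟫_ℂ := by rw [sp_idem hb]
    _ = ⟪b x, b x⟫_ℂ := sp_inner hb _ _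
    _ = (‖b x‖ : ℂ) ^ 2 := by rw [inner_self_eq_norm_sq_to_K]; simp

lemma sp_norm_sq (hb : IsStarProjection b) (x : H) : ‖x‖ ^ 2 = ‖b x‖ ^ 2 + ‖x - b x‖ ^ 2 := by
  have h : ⟪b x, x - b x⟫_ℂ = 0 := by
    rw [sp_inner hb, map_sub, sp_idem hb, sub_self, inner_zero_right]
  have h2 := norm_add_sq_eq_norm_sq_add_norm_sq_of_inner_eq_zero (b x) (x - b x) h
  rw [add_sub_cancel] at h2
  nlinarith [h2]

lemma sp_norm_le (hb : IsStarProjection b) (x : H) : ‖b x‖ ≤ ‖x‖ := by
  have := sp_norm_sq hb x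
  have h2 : ‖b x‖ ^ 2 ≤ ‖x‖ ^ 2 := by nlinarith [sq_nonneg ‖x - b x‖]
  exact le_of_sq_le_sq h2 (norm_nonneg _)

end SP

/-- `B` is a maximal family of pairwise commuting projections. -/
structure IsMaxComm (B : Set (H →L[ℂ] H)) : Prop where
  proj : ∀ b ∈ B, IsStarProjection b
  comm : ∀ b ∈ B, ∀ c ∈ B, b * c = c * b
  maxl : ∀ p, IsStarProjection p → (∀ b ∈ B, p * b = b * p) → p ∈ B

lemma exists_maxComm (M : Set (H →L[ℂ] H)) (hp : ∀ b ∈ M, IsStarProjection b)
    (hc : ∀ b ∈ M, ∀ c ∈ M, b * c = c * b) : ∃ B, M ⊆ B ∧ IsMaxComm B := by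
  obtain ⟨B, hMB, hB⟩ := zorn_subset_nonempty
    {S : Set (H →L[ℂ] H) | (∀ b ∈ S, IsStarProjection b) ∧ ∀ b ∈ S, ∀ c ∈ S, b * c = c * b}
    (by
      intro c hc1 hc2 hne
      refine ⟨⋃₀ c, ⟨?_, ?_⟩, fun s hs => Set.subset_sUnion_of_mem hs⟩
      · rintro b ⟨s, hs, hb⟩
        exact (hc1 hs).1 b hb
      · rintro b ⟨s, hs, hb⟩ d ⟨t, ht, hd⟩
        rcases hc2.total hs ht with h | h
        · exact (hc1 ht).2 b (h hb) d hd
        · exact (hc1 hs).2 b hb d (h hd)) M ⟨hp, hc⟩
  refine ⟨B, hMB, hB.prop.1, hB.prop.2, fun p hp hpc => ?_⟩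
  have h1 : insert p B ∈ {S : Set (H →L[ℂ] H) | (∀ b ∈ S, IsStarProjection b) ∧
      ∀ b ∈ S, ∀ c ∈ S, b * c = c * b} := by
    refine ⟨?_, ?_⟩
    · rintro b (rfl | hb)
      · exact hp
      · exact hB.prop.1 b hb
    · rintro b (rfl | hb) d (rfl | hd)
      · rfl
      · exact hpc d hd
      · exact (hpc b hb).symm
      · exact hB.prop.2 b hb d hd
  exact hB.le_of_ge h1 (Set.subset_insert p B) (Set.mem_insert p B)

section MaxComm

variable {B : Set (H →L[ℂ] H)} (hB : IsMaxComm B)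
include hB

lemma IsMaxComm.zero : (0 : H →L[ℂ] H) ∈ B :=
  hB.maxl 0 (IsStarProjection.zero _) (fun b _ => by simp)

lemma IsMaxComm.one : (1 : H →L[ℂ] H) ∈ B :=
  hB.maxl 1 (IsStarProjection.one _) (fun b _ => by simp)

lemma IsMaxComm.mul {b c : H →L[ℂ] H} (hb : b ∈ B) (hc : c ∈ B) : b * c ∈ B := by
  refine hB.maxl _ ((hB.proj b hb).mul (hB.proj c hc) (hB.comm b hb c hc)) fun d hd => ?_
  rw [mul_assoc, hB.comm c hc d hd, ← mul_assoc, hB.comm b hb d hd, mul_assoc]

lemma IsMaxComm.one_sub {b : H →L[ℂ] H} (hb : b ∈ B) : 1 - b ∈ B := by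
  refine hB.maxl _ (hB.proj b hb).one_sub fun d hd => ?_
  rw [sub_mul, mul_sub, one_mul, mul_one, hB.comm b hb d hd]

lemma IsMaxComm.sub {b c : H →L[ℂ] H} (hb : b ∈ B) (hc : c ∈ B) (h : c * b = c) : b - c ∈ B := by
  have := hB.mul hb (hB.one_sub hc)
  rw [mul_sub, mul_one, hB.comm b hb c hc, h] at this
  exact this

lemma IsMaxComm.add {b c : H →L[ℂ] H} (hb : b ∈ B) (hc : c ∈ B) (h : b * c = 0) : b + c ∈ B := by
  have := hB.one_sub (hB.mul (hB.one_sub hb) (hB.one_sub hc))
  have e : 1 - (1 - b) * (1 - c) = b + c := by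
    rw [sub_mul, one_mul, mul_sub, mul_one, h]; abel
  rw [e] at this
  exact this

/-- Projections onto closed subspaces invariant under `B` belong to `B`. -/
lemma IsMaxComm.starProjection_mem (U : Submodule ℂ H) [U.HasOrthogonalProjection]
    (hU : ∀ b ∈ B, ∀ x ∈ U, b x ∈ U) : U.starProjection ∈ B := by
  refine hB.maxl _ isStarProjection_starProjection fun b hb => ?_
  ext x
  change U.starProjection (b x) = b (U.starProjection x)
  refine Submodule.eq_starProjection_of_mem_of_inner_eq_zero (hU b hb _ (Submodule.starProjection_apply_mem _ _)) ?_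
  intro w hw
  rw [← map_sub, sp_inner (hB.proj b hb)]
  exact Submodule.starProjection_inner_eq_zero _ _ (hU b hb w hw)

end MaxComm

/-- The joint eigenvectors of the family `B`. -/
def eigvecs (B : Set (H →L[ℂ] H)) : Set H := {g | ∀ b ∈ B, b g = 0 ∨ b g = g}

/-- The closed span of the joint eigenvectors. -/
def atomSpace (B : Set (H →L[ℂ] H)) : Submodule ℂ H := (Submodule.span ℂ (eigvecs B)).topologicalClosure

instance (B : Set (H →L[ℂ] H)) : (atomSpace B).HasOrthogonalProjection := by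
  have : CompleteSpace (atomSpace B) :=
    (Submodule.isClosed_topologicalClosure _).completeSpace_coe
  infer_instance

/-- The projection onto the atomic part. -/
def atomProj (B : Set (H →L[ℂ] H)) : H →L[ℂ] H := (atomSpace B).starProjection

section Atom

variable {B : Set (H →L[ℂ] H)} (hB : IsMaxComm B)
include hB

lemma atomProj_mem : atomProj B ∈ B := by
  refine hB.starProjection_mem _ fun b hb x hx => ?_
  unfold atomSpace at hx ⊢
  have h1 : Submodule.span ℂ (eigvecs B) ≤ (Submodule.span ℂ (eigvecs B)).comap (b : H →ₗ[ℂ] H) := by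
    rw [Submodule.span_le]
    intro g hg
    change b g ∈ Submodule.span ℂ (eigvecs B)
    rcases hg b hb with h | h
    · rw [h]; exact Submodule.zero_mem _
    · rw [h]; exact Submodule.subset_span hg
  have h2 : Set.MapsTo b (Submodule.span ℂ (eigvecs B) : Set H) (Submodule.span ℂ (eigvecs B) : Set H) :=
    fun y hy => h1 hy
  have h3 := h2.closure b.continuous
  rw [← SetLike.mem_coe, Submodule.topologicalClosure_coe] at hx ⊢
  exact h3 hx

/-- Below the complement of the atomic part there are no atoms. -/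
lemma atomless {q : H →L[ℂ] H} (hq : q ∈ B) (hqz : q * atomProj B = 0) (hq0 : q ≠ 0) :
    ∃ p ∈ B, p * q = p ∧ p ≠ 0 ∧ p ≠ q := by
  by_contra hcon
  push Not at hcon
  obtain ⟨x, hx⟩ : ∃ x, q x ≠ 0 := by
    by_contra h
    push Not at h
    exact hq0 (ContinuousLinearMap.ext h)
  have hg : q x ∈ eigvecs B := by
    intro b hb
    have h1 := hcon (b * q) (hB.mul hb hq) (by
      rw [mul_assoc, (hB.proj q hq).isIdempotentElem])
    by_cases h2 : b * q = 0
    · left
      have := congrArg (fun T : H →L[ℂ] H => T x) h2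
      simpa using this
    · right
      have := congrArg (fun T : H →L[ℂ] H => T x) (h1 h2)
      simpa using this
  have h2 : atomProj B (q x) = q x := by
    unfold atomProj
    rw [Submodule.starProjection_eq_self_iff]
    exact Submodule.le_topologicalClosure _ (Submodule.subset_span hg)
  have h3 : atomProj B (q x) = 0 := by
    have h4 : atomProj B * q = 0 := by rw [hB.comm _ (atomProj_mem hB) q hq, hqz]
    have := congrArg (fun T : H →L[ℂ] H => T x) h4
    simpa using this
  exact hx (h2.symm.trans h3)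

end Atom

/-! ### Symmetries making a vector almost orthogonal to finitely many vectors -/

section Symm

variable {ι : Type*} (s : Finset ι) (e : ι → H)

/-- The quadratic functional `∑ |⟨e i, x⟩|²`. -/
def rho (x : H) : ℝ := ∑ i ∈ s, ‖⟪e i, x⟫_ℂ‖ ^ 2

omit [CompleteSpace H] in
lemma rho_nonneg (x : H) : 0 ≤ rho s e x := Finset.sum_nonneg fun _ _ => by positivity

omit [CompleteSpace H] in
lemma rho_parallelogram (x y : H) :
    rho s e (x + y) + rho s e (x - y) = 2 * (rho s e x + rho s e y) := by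
  unfold rho
  rw [← Finset.sum_add_distrib, ← Finset.sum_add_distrib, Finset.mul_sum]
  refine Finset.sum_congr rfl fun i _ => ?_
  rw [inner_add_right, inner_sub_right]
  have := parallelogram_law_with_norm ℝ (⟪e i, x⟫_ℂ) (⟪e i, y⟫_ℂ)
  nlinarith [this]

/-- some symmetry under `q` makes `η` small in the sense of `rho` -/
def Good (B : Set (H →L[ℂ] H)) (η : H) (δ : ℝ) (q : H →L[ℂ] H) : Prop :=
  ∃ b ∈ B, b * q = b ∧ rho s e ((2 : ℂ) • b η - q η) ≤ δ ^ 2 * ∑ i ∈ s, ‖q (e i)‖ ^ 2

variable {s e} {B : Set (H →L[ℂ] H)} (hB : IsMaxComm B) {η : H} {δ : ℝ}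
include hB

lemma good_of_small {q : H →L[ℂ] H} (hq : q ∈ B) (hs : ‖q η‖ ≤ δ) : Good s e B η δ q := by
  refine ⟨q, hq, (hB.proj q hq).isIdempotentElem, ?_⟩
  have e1 : (2 : ℂ) • q η - q η = q η := by rw [two_smul]; abel
  rw [e1]
  unfold rho
  rw [Finset.mul_sum]
  refine Finset.sum_le_sum fun i _ => ?_
  have h1 : ⟪e i, q η⟫_ℂ = ⟪q (e i), q η⟫_ℂ := by
    rw [sp_inner (hB.proj q hq), sp_idem (hB.proj q hq)]
  rw [h1]
  have h2 := norm_inner_le_norm (𝕜 := ℂ) (q (e i)) (q η)
  have h3 : ‖⟪q (e i), q η⟫_ℂ‖ ≤ ‖q (e i)‖ * δ := h2.trans (by gcongr)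
  calc ‖⟪q (e i), q η⟫_ℂ‖ ^ 2 ≤ (‖q (e i)‖ * δ) ^ 2 := by gcongr
    _ = δ ^ 2 * ‖q (e i)‖ ^ 2 := by ring

lemma good_add {p p' : H →L[ℂ] H} (hp : p ∈ B) (hp' : p' ∈ B) (h0 : p * p' = 0)
    (h1 : Good s e B η δ p) (h2 : Good s e B η δ p') : Good s e B η δ (p + p') := by
  obtain ⟨b, hb, hbp, hb1⟩ := h1
  obtain ⟨b', hb', hbp', hb1'⟩ := h2
  have hpp : p' * p = 0 := by rw [hB.comm _ hp' _ hp, h0]
  have hbb : b * b' = 0 := by
    rw [← hbp, ← hbp', hB.comm b' hb' p' hp', mul_assoc, ← mul_assoc p, h0, zero_mul, mul_zero]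
  have hbp2 : b * p' = 0 := by rw [← hbp, mul_assoc, h0, mul_zero]
  have hbp3 : b' * p = 0 := by rw [← hbp', mul_assoc, hpp, mul_zero]
  have hsum : ∀ i, ‖(p + p') (e i)‖ ^ 2 = ‖p (e i)‖ ^ 2 + ‖p' (e i)‖ ^ 2 := by
    intro i
    have : ⟪p (e i), p' (e i)⟫_ℂ = 0 := by
      rw [sp_inner (hB.proj p hp)]
      have := congrArg (fun T : H →L[ℂ] H => T (e i)) h0
      simp only [mul_apply_eq_comp, zero_apply] at this
      rw [this, inner_zero_right]
    have := norm_add_sq_eq_norm_sq_add_norm_sq_of_inner_eq_zero _ _ this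
    rw [add_apply, sq, this]
    ring
  have hsum' : ∑ i ∈ s, ‖(p + p') (e i)‖ ^ 2 = ∑ i ∈ s, ‖p (e i)‖ ^ 2 + ∑ i ∈ s, ‖p' (e i)‖ ^ 2 := by
    rw [← Finset.sum_add_distrib]
    exact Finset.sum_congr rfl fun i _ => hsum i
  set x := (2 : ℂ) • b η - p η with hx
  set x' := (2 : ℂ) • b' η - p' η with hx'
  have hpar := rho_parallelogram s e x x'
  rcases le_total (rho s e (x + x')) (rho s e x + rho s e x') with h | h
  · refine ⟨b + b', hB.add hb hb' hbb, ?_, ?_⟩
    · rw [add_mul, mul_add, mul_add, hbp, hbp', hbp2, hbp3, add_zero, zero_add]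
    · have e1 : (2 : ℂ) • (b + b') η - (p + p') η = x + x' := by
        rw [add_apply, add_apply, smul_add, hx, hx']; abel
      rw [e1, hsum', mul_add]
      linarith
  · have h' : rho s e (x - x') ≤ rho s e x + rho s e x' := by linarith
    have hc : p' - b' ∈ B := hB.sub hp' hb' hbp'
    refine ⟨b + (p' - b'), hB.add hb hc ?_, ?_, ?_⟩
    · rw [mul_sub, hbp2, hbb, sub_zero]
    · rw [add_mul, mul_add, sub_mul, mul_add, mul_add, hbp, hbp', hbp2, hbp3, hpp,
        (hB.proj p' hp').isIdempotentElem, add_zero, zero_add, zero_add]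
    · have e1 : (2 : ℂ) • (b + (p' - b')) η - (p + p') η = x - x' := by
        rw [add_apply, add_apply,
          sub_apply, smul_add, smul_sub, hx, hx', two_smul ℂ (p' η)]; abel
      rw [e1, hsum', mul_add]
      linarith

/-- Monotone limits of members of `B`. -/
lemma exists_sup {c : Set (Submodule ℂ H)} (hc : ∀ U ∈ c, ∃ p ∈ B, U = p.range)
    (hch : IsChain (· ≤ ·) c) (hne : c.Nonempty) (y : H) {ε : ℝ} (hε : 0 < ε) :
    ∃ p ∈ B, (∀ U ∈ c, U ≤ p.range) ∧ (∀ r ∈ B, (∀ U ∈ c, U ≤ r.range) → p.range ≤ r.range) ∧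
      ∃ r ∈ B, r.range ∈ c ∧ ‖p y - r y‖ < ε := by
  set W : Submodule ℂ H := (⨆ i : c, i.1).topologicalClosure with hW
  have hWc : IsClosed (W : Set H) := Submodule.isClosed_topologicalClosure _
  have : CompleteSpace W := hWc.completeSpace_coe
  have hWB : W.starProjection ∈ B := by
    refine hB.starProjection_mem _ fun b hb x hx => ?_
    have h1 : (⨆ i : c, i.1) ≤ (⨆ i : c, i.1).comap (b : H →ₗ[ℂ] H) := by
      refine iSup_le fun i => ?_
      obtain ⟨p, hp, hip⟩ := hc i.1 i.2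
      intro x hx
      have hx2 : x ∈ p.range := hip ▸ hx
      obtain ⟨z, rfl⟩ := hx2
      change b (p z) ∈ (⨆ i : c, i.1 : Submodule ℂ H)
      have h2 : b (p z) = p (b z) := by
        have := congrArg (fun T : H →L[ℂ] H => T z) (hB.comm b hb p hp)
        simpa using this
      rw [h2]
      refine Submodule.mem_iSup_of_mem i ?_
      rw [hip]
      exact ⟨b z, rfl⟩
    have h2 : Set.MapsTo b ((⨆ i : c, i.1 : Submodule ℂ H) : Set H)
        ((⨆ i : c, i.1 : Submodule ℂ H) : Set H) := fun y hy => h1 hy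
    have h3 := h2.closure b.continuous
    rw [hW, ← SetLike.mem_coe, Submodule.topologicalClosure_coe] at hx ⊢
    exact h3 hx
  have hrange : W.starProjection.range = W := Submodule.range_starProjection W
  have hle : ∀ U ∈ c, U ≤ W := fun U hU =>
    (le_iSup (fun i : c => i.1) ⟨U, hU⟩).trans (Submodule.le_topologicalClosure _)
  refine ⟨W.starProjection, hWB, fun U hU => hrange.symm ▸ hle U hU, ?_, ?_⟩
  · intro r hr h
    rw [hrange, hW]
    refine Submodule.topologicalClosure_minimal _ (iSup_le fun i => h i.1 i.2) ?_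
    obtain ⟨V, hV, hrV⟩ := isStarProjection_iff_eq_starProjection.mp (hB.proj r hr)
    rw [hrV, Submodule.range_starProjection]
    rw [← V.orthogonal_orthogonal]
    exact Submodule.isClosed_orthogonal _
  · have hproj : ∀ i : c, (i.1 : Submodule ℂ H).HasOrthogonalProjection := by
      intro i
      obtain ⟨p, hp, hip⟩ := hc i.1 i.2
      obtain ⟨V, hV, hrV⟩ := isStarProjection_iff_eq_starProjection.mp (hB.proj p hp)
      rw [hip, hrV, Submodule.range_starProjection]
      exact hV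
    have hmono : Monotone (fun i : c => (i.1 : Submodule ℂ H)) := fun i j hij => hij
    have ht := Submodule.starProjection_tendsto_closure_iSup (fun i : c => (i.1 : Submodule ℂ H)) hmono y
    have hne' : Nonempty c := hne.to_subtype
    have hdir : IsDirectedOrder c := by
      refine ⟨fun a b => ?_⟩
      rcases hch.total a.2 b.2 with h | h
      · exact ⟨b, h, le_rfl⟩
      · exact ⟨a, le_rfl, h⟩
    have hev := (Metric.tendsto_nhds.mp ht ε hε).exists
    obtain ⟨i, hi⟩ := hev
    obtain ⟨p, hp, hip⟩ := hc i.1 i.2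
    obtain ⟨V, hV, hrV⟩ := isStarProjection_iff_eq_starProjection.mp (hB.proj p hp)
    refine ⟨p, hp, hip ▸ i.2, ?_⟩
    have hVi : V = i.1 := by rw [hip, hrV, Submodule.range_starProjection]
    rw [dist_eq_norm, norm_sub_rev] at hi
    subst hVi
    rw [hrV]
    exact hi

/-- On the atomless part, symmetries make any vector almost orthogonal to finitely many vectors. -/
lemma good_of_atomless (hδ : 0 < δ) {q₀ : H →L[ℂ] H} (hq₀ : q₀ ∈ B) (hz : q₀ * atomProj B = 0) :
    Good s e B η δ q₀ := by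
  by_contra hbad
  set S : Set (Submodule ℂ H) := {U | ∃ p ∈ B, U = p.range ∧ p * q₀ = p ∧ ¬ Good s e B η δ (q₀ - p)}
    with hS
  have mul_of_range_le : ∀ p ∈ B, ∀ r ∈ B, p.range ≤ r.range → r * p = p := by
    intro p hp r hr h
    ext x
    obtain ⟨z, hz⟩ : p x ∈ r.range := h ⟨x, rfl⟩
    change r (p x) = p x
    rw [← hz]
    exact sp_idem (hB.proj r hr) z
  have range_le_of_mul : ∀ p : H →L[ℂ] H, ∀ r : H →L[ℂ] H, r * p = p → p.range ≤ r.range := by
    rintro p r h _ ⟨x, rfl⟩
    exact ⟨p x, congrArg (fun T : H →L[ℂ] H => T x) h⟩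
  obtain ⟨U, hUle, hU⟩ := zorn_le_nonempty₀ S (by
    intro c hcS hch U₀ hU₀
    have hc : ∀ U ∈ c, ∃ p ∈ B, U = p.range := fun U hU => by
      obtain ⟨p, hp, h1, _⟩ := hcS hU
      exact ⟨p, hp, h1⟩
    obtain ⟨p, hp, hub, hlub, -⟩ := exists_sup hB hc hch ⟨U₀, hU₀⟩ η one_pos
    have hpq : p * q₀ = p := by
      rw [hB.comm p hp q₀ hq₀]
      refine mul_of_range_le p hp q₀ hq₀ (hlub q₀ hq₀ fun U hU => ?_)
      obtain ⟨r, hr, h1, h2, _⟩ := hcS hU
      rw [h1]
      exact range_le_of_mul r q₀ (by rw [hB.comm q₀ hq₀ r hr, h2])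
    refine ⟨p.range, ⟨p, hp, rfl, hpq, fun hgood => ?_⟩, hub⟩
    obtain ⟨p', hp', hub', hlub', r, hr, hrc, hrn⟩ := exists_sup hB hc hch ⟨U₀, hU₀⟩ η hδ
    obtain ⟨r', hr', h1, h2, h3⟩ := hcS hrc
    have hpp : p = p' := by
      have a1 := mul_of_range_le p hp p' hp' (hlub p' hp' hub')
      have a2 := mul_of_range_le p' hp' p hp (hlub' p hp hub)
      rw [← a1, hB.comm p' hp' p hp, a2]
    subst hpp
    have hrr : r = r' := by
      have a1 := mul_of_range_le r hr r' hr' (le_of_eq h1)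
      have a2 := mul_of_range_le r' hr' r hr (le_of_eq h1.symm)
      rw [← a1, hB.comm r' hr' r hr, a2]
    subst hrr
    have hrp : r * p = r := by
      rw [hB.comm r hr p hp]
      exact mul_of_range_le r hr p hp (hub _ hrc)
    refine h3 ?_
    have e1 : q₀ - r = (q₀ - p) + (p - r) := by abel
    rw [e1]
    have hsub1 : q₀ - p ∈ B := hB.sub hq₀ hp hpq
    have hsub2 : p - r ∈ B := hB.sub hp hr hrp
    refine good_add hB hsub1 hsub2 ?_ hgood (good_of_small hB hsub2 ?_)
    · rw [sub_mul, mul_sub, mul_sub, (hB.proj p hp).isIdempotentElem, hB.comm q₀ hq₀ p hp, hpq,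
        hB.comm q₀ hq₀ r hr, h2, hB.comm p hp r hr, hrp]
      abel
    · exact hrn.le) (0 : H →L[ℂ] H).range ⟨0, hB.zero, rfl, by simp, by simpa using hbad⟩
  obtain ⟨p, hp, rfl, hpq, hpbad⟩ := hU.prop
  set a := q₀ - p with ha
  have haB : a ∈ B := hB.sub hq₀ hp hpq
  have haz : a * atomProj B = 0 := by
    rw [ha, sub_mul, hz, ← hpq, mul_assoc, hz, mul_zero, sub_zero]
  have ha0 : a ≠ 0 := by
    intro h
    refine hpbad ?_
    rw [h]
    refine good_of_small hB hB.zero ?_
    simpa using hδ.le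
  obtain ⟨r, hr, hra, hr0, hrne⟩ := atomless hB haB haz ha0
  have hpa : p * a = 0 := by
    rw [ha, mul_sub, hpq, (hB.proj p hp).isIdempotentElem, sub_self]
  have hpr : p * r = 0 := by
    rw [← hra, hB.comm r hr a haB, ← mul_assoc, hpa, zero_mul]
  -- maximality: removing any nonzero piece makes the rest good
  have key : ∀ t ∈ B, t * a = t → t ≠ 0 → Good s e B η δ (a - t) := by
    intro t ht hta ht0
    by_contra hnot
    have hpt : p * t = 0 := by
      rw [← hta, hB.comm t ht a haB, ← mul_assoc, hpa, zero_mul]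
    have hptB : p + t ∈ B := hB.add hp ht hpt
    have htq : t * q₀ = t := by
      have e1 : q₀ = a + p := by rw [ha]; abel
      rw [e1, mul_add, hta, hB.comm t ht p hp, hpt, add_zero]
    have hmem : (p + t).range ∈ S := by
      refine ⟨p + t, hptB, rfl, by rw [add_mul, hpq, htq], ?_⟩
      have e1 : q₀ - (p + t) = a - t := by rw [ha]; abel
      rw [e1]
      exact hnot
    have hle : p.range ≤ (p + t).range := by
      refine range_le_of_mul p (p + t) ?_
      rw [add_mul, (hB.proj p hp).isIdempotentElem, hB.comm t ht p hp, hpt, add_zero]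
    have hge := hU.le_of_ge hmem hle
    have h1 := mul_of_range_le (p + t) hptB p hp hge
    rw [mul_add, (hB.proj p hp).isIdempotentElem, hpt, add_zero] at h1
    exact ht0 (by
      have : p + t - p = t := by abel
      rw [← this, ← h1, sub_self])
  have g1 : Good s e B η δ (a - r) := key r hr hra hr0
  have har : a - r ∈ B := hB.sub haB hr hra
  have g2 : Good s e B η δ r := by
    have h1 : (a - r) * a = a - r := by
      rw [sub_mul, (hB.proj a haB).isIdempotentElem, hra]
    have h2 : a - r ≠ 0 := by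
      intro h
      exact hrne (sub_eq_zero.mp h).symm
    have := key (a - r) har h1 h2
    rwa [sub_sub_cancel] at this
  refine hpbad ?_
  have e1 : a = (a - r) + r := by abel
  rw [e1]
  refine good_add hB har hr ?_ g1 g2
  rw [sub_mul, hB.comm a haB r hr, hra, (hB.proj r hr).isIdempotentElem, sub_self]

end Symm

end Pool.Agent.Helper290.Calk
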