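import Pool.Agent.Helper290.Calk.Comm

set_option autoImplicit false
set_option linter.unusedSectionVars false

/-! # What a lifting of a maximal filter gives -/

noncomputable section

namespace Pool.Agent.Helper290.Calk

variable {H : Type*} [NormedAddCommGroup H] [InnerProductSpace ℂ H] [CompleteSpace H]

lemma IsStarProjection.π {x : H →L[ℂ] H} (hx : IsStarProjection x) : IsStarProjection (π x) := by
  rw [isStarProjection_iff']
  rw [← map_mul, hx.isIdempotentElem, ← π_star, hx.isSelfAdjoint.star_eq]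
  exact ⟨rfl, rfl⟩

/-- If `F` lifts there is a maximal commuting family `B` of projections of `B(H)` and a family
`M ⊆ B` closed under products, mapped into `F` and cofinal in `F`. -/
lemma exists_of_lifts {F : Set (Calkin H)} (hne : F.Nonempty) (hl : Lifts H F) :
    ∃ (B M : Set (H →L[ℂ] H)), IsMaxComm B ∧ M ⊆ B ∧ (∀ x ∈ M, ∀ y ∈ M, x * y ∈ M) ∧
      (∀ x ∈ M, π x ∈ F) ∧ ∀ p ∈ F, ∃ x ∈ M, π x * p = π x := by
  obtain ⟨Y, hYp, hYc, hgen, himg⟩ := hl
  set M : Submonoid (H →L[ℂ] H) := Submonoid.closure Y with hM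
  have hcomm1 : ∀ x ∈ M, ∀ y ∈ Y, x * y = y * x := by
    intro x hx y hy
    induction hx using Submonoid.closure_induction with
    | mem z hz => exact hYc z hz y hy
    | one => simp
    | mul a c _ _ ha hc => rw [mul_assoc, hc, ← mul_assoc, ha, mul_assoc]
  have hcomm : ∀ x ∈ M, ∀ y ∈ M, x * y = y * x := by
    intro x hx y hy
    induction hy using Submonoid.closure_induction with
    | mem z hz => exact hcomm1 x hx z hz
    | one => simp
    | mul a c _ _ ha hc => rw [← mul_assoc, ha, mul_assoc, hc, mul_assoc]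
  have hproj : ∀ x ∈ M, IsStarProjection x := by
    intro x hx
    induction hx using Submonoid.closure_induction with
    | mem z hz => exact hYp z hz
    | one => exact IsStarProjection.one _
    | mul a c ha hc iha ihc => exact iha.mul ihc (hcomm a ha c hc)
  have hF₀ : IsProjFilter {q : H →L[ℂ] H | IsStarProjection q ∧ ∃ x ∈ M, x * q = x} := by
    refine ⟨fun p hp => hp.1, ?_, ?_⟩
    · rintro p ⟨hp, x, hx, hxp⟩ q ⟨hq, y, hy, hyq⟩
      refine ⟨x * y, ⟨hproj _ (M.mul_mem hx hy), x * y, M.mul_mem hx hy,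
        (hproj _ (M.mul_mem hx hy)).isIdempotentElem⟩, ?_, ?_⟩
      · rw [hcomm x hx y hy, mul_assoc, hxp]
      · rw [mul_assoc, hyq]
    · rintro p ⟨hp, x, hx, hxp⟩ r hr hpr
      exact ⟨hr, x, hx, by rw [← hxp, mul_assoc, hpr]⟩
  have hYF₀ : Y ⊆ {q : H →L[ℂ] H | IsStarProjection q ∧ ∃ x ∈ M, x * q = x} := fun y hy =>
    ⟨hYp y hy, y, Submonoid.subset_closure hy, (hYp y hy).isIdempotentElem⟩
  have hMgen : ∀ x ∈ M, x ∈ generated Y := by
    intro x hx
    induction hx using Submonoid.closure_induction with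
    | mem z hz => exact fun G _ hYG => hYG hz
    | one =>
      obtain ⟨p, hp⟩ := hne
      rw [← himg] at hp
      obtain ⟨r, hr, -⟩ := hp
      exact hgen.upward r hr 1 (IsStarProjection.one _) (mul_one r)
    | mul a c ha hc iha ihc =>
      obtain ⟨r, hr, hra, hrc⟩ := hgen.directed a iha c ihc
      refine hgen.upward r hr _ ((hproj a ha).mul (hproj c hc) (hcomm a ha c hc)) ?_
      rw [← mul_assoc, hra, hrc]
  obtain ⟨B, hMB, hB⟩ := exists_maxComm (M : Set (H →L[ℂ] H)) hproj hcomm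
  refine ⟨B, M, hB, hMB, fun x hx y hy => M.mul_mem hx hy, fun x hx => ?_, fun p hp => ?_⟩
  · rw [← himg]
    exact ⟨x, hMgen x hx, rfl⟩
  · rw [← himg] at hp
    obtain ⟨q, hq, rfl⟩ := hp
    obtain ⟨hqp, x, hx, hxq⟩ := hq _ hF₀ hYF₀
    exact ⟨x, hx, by rw [← map_mul, hxq]⟩

/-- The situation obtained from a lifting of a maximal filter. -/
structure LiftData (F : Set (Calkin H)) (B M : Set (H →L[ℂ] H)) : Prop where
  ne : F.Nonempty
  maxf : IsMaximalFilter F
  maxB : IsMaxComm B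
  sub : M ⊆ B
  mul : ∀ x ∈ M, ∀ y ∈ M, x * y ∈ M
  mem : ∀ x ∈ M, π x ∈ F
  cofinal : ∀ p ∈ F, ∃ x ∈ M, π x * p = π x

lemma exists_liftData {F : Set (Calkin H)} (hF : IsMaximalFilter F) (hne : F.Nonempty) (hl : Lifts H F) :
    ∃ B M, LiftData F B M := by
  obtain ⟨B, M, h1, h2, h3, h4, h5⟩ := exists_of_lifts hne hl
  exact ⟨B, M, hne, hF, h1, h2, h3, h4, h5⟩

section

variable {F : Set (Calkin H)} {B M : Set (H →L[ℂ] H)} (D : LiftData F B M)
include D

/-- products of members of `F` coming from commuting lifts are not zero -/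
lemma LiftData.not_compact {c d : H →L[ℂ] H} (hc : π c ∈ F) (hd : π d ∈ F) :
    ¬ IsCompactOperator (c * d : H →L[ℂ] H) := by
  intro h
  rw [← π_eq_zero_iff, map_mul] at h
  obtain ⟨r, hr, h1, h2⟩ := D.maxf.1.directed _ hc _ hd
  have : r = 0 := by
    rw [← h2, ← h1, mul_assoc, h, mul_zero]
  exact D.maxf.2.1 (this ▸ hr)

lemma LiftData.mem_mul {c d : H →L[ℂ] H} (hcB : c ∈ B) (hdB : d ∈ B) (hc : π c ∈ F) (hd : π d ∈ F) :
    π (c * d) ∈ F := by
  obtain ⟨r, hr, h1, h2⟩ := D.maxf.1.directed _ hc _ hd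
  refine D.maxf.1.upward r hr _ (IsStarProjection.π (D.maxB.proj _ (D.maxB.mul hcB hdB))) ?_
  rw [map_mul, ← mul_assoc, h1, h2]

/-- `F` decides every member of `B` -/
lemma LiftData.dichotomy {z : H →L[ℂ] H} (hz : z ∈ B) : π z ∈ F ∨ π (1 - z) ∈ F := by
  by_cases h : ∃ x ∈ M, π (x * z) = 0
  · right
    obtain ⟨x, hx, hxz⟩ := h
    refine D.maxf.1.upward (π x) (D.mem x hx) _ (IsStarProjection.π (D.maxB.proj _ (D.maxB.one_sub hz))) ?_
    rw [← map_mul, mul_sub, mul_one, map_sub, hxz, sub_zero]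
  · left
    push Not at h
    set G : Set (Calkin H) := {p | IsStarProjection p ∧ ∃ x ∈ M, π (x * z) * p = π (x * z)} with hG
    have hGf : IsProjFilter G := by
      refine ⟨fun p hp => hp.1, ?_, ?_⟩
      · rintro p ⟨hp, x, hx, hxp⟩ q ⟨hq, y, hy, hyq⟩
        have hxB := D.sub hx
        have hyB := D.sub hy
        have hw : IsStarProjection (x * y * z) := D.maxB.proj _ (D.maxB.mul (D.maxB.mul hxB hyB) hz)
        refine ⟨π (x * y * z), ⟨IsStarProjection.π hw, x * y, D.mul x hx y hy, ?_⟩, ?_, ?_⟩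
        · rw [← map_mul, hw.isIdempotentElem]
        · have e : x * y * z = y * (x * z) := by
            rw [D.maxB.comm x hxB y hyB, mul_assoc]
          rw [e, map_mul, mul_assoc, hxp]
        · rw [mul_assoc, map_mul, mul_assoc, hyq]
      · rintro p ⟨hp, x, hx, hxp⟩ r hr hpr
        exact ⟨hr, x, hx, by rw [← hxp, mul_assoc, hpr]⟩
    have h0 : (0 : Calkin H) ∉ G := by
      rintro ⟨-, x, hx, hx0⟩
      rw [mul_zero] at hx0
      exact h x hx hx0.symm
    have hFG : F ⊆ G := by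
      intro p hp
      obtain ⟨x, hx, hxp⟩ := D.cofinal p hp
      refine ⟨D.maxf.1.proj p hp, x, hx, ?_⟩
      rw [D.maxB.comm x (D.sub hx) z hz, map_mul, mul_assoc, hxp]
    have hGF := D.maxf.2.2 G hGf h0 hFG
    obtain ⟨p, hp⟩ := D.ne
    obtain ⟨x, hx, -⟩ := D.cofinal p hp
    rw [← hGF]
    refine ⟨IsStarProjection.π (D.maxB.proj z hz), x, hx, ?_⟩
    rw [← map_mul, mul_assoc, (D.maxB.proj z hz).isIdempotentElem]

end

end Pool.Agent.Helper290.Calk
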