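import Pool.Agent.Helper290.Calk.CaseA2
import Pool.Agent.Helper290.Calk.Lift

set_option autoImplicit false
set_option linter.unusedSectionVars false

/-! # A maximal filter in the Calkin algebra that does not lift -/

open scoped InnerProductSpace
open Filter Topology

noncomputable section

namespace Pool.Agent.Helper290.Calk

lemma exists_sizes : ∃ n d : ℕ × ℕ → ℕ, Sizes n d ∧ (∀ p, 0 < n p) ∧ ∀ m k, m ≤ n (m, k) := by
  have h : ∀ p : ℕ × ℕ, ∃ d : ℕ, 1 ≤ d ∧ (((p.1 + 2) * d : ℕ) : ℝ) * 2 ^ p.2 < (47 / 46 : ℝ) ^ d := by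
    intro p
    have h1 := tendsto_self_mul_const_pow_of_lt_one (r := (46 / 47 : ℝ)) (by norm_num) (by norm_num)
    have h2 := h1.const_mul (((p.1 : ℝ) + 2) * 2 ^ p.2)
    rw [mul_zero] at h2
    obtain ⟨d, hd1, hd2⟩ := ((h2.eventually (gt_mem_nhds one_pos)).and (eventually_ge_atTop 1)).exists
    refine ⟨d, hd2, ?_⟩
    have h3 : (47 / 46 : ℝ) ^ d * (46 / 47) ^ d = 1 := by rw [← mul_pow]; norm_num
    have h4 : (0 : ℝ) < (47 / 46 : ℝ) ^ d := by positivity
    have h5 : (((p.1 : ℝ) + 2) * 2 ^ p.2 * ((d : ℝ) * (46 / 47) ^ d)) * (47 / 46 : ℝ) ^ d <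
        1 * (47 / 46 : ℝ) ^ d := by gcongr
    rw [one_mul] at h5
    refine lt_of_eq_of_lt ?_ h5
    push_cast
    have : ((p.1 : ℝ) + 2) * 2 ^ p.2 * ((d : ℝ) * (46 / 47) ^ d) * (47 / 46 : ℝ) ^ d =
        ((p.1 : ℝ) + 2) * 2 ^ p.2 * d * ((47 / 46 : ℝ) ^ d * (46 / 47) ^ d) := by ring
    rw [this, h3]
    ring
  choose d hd1 hd2 using h
  refine ⟨fun p => (p.1 + 2) * d p, d, ⟨fun p => rfl, hd1, hd2⟩, fun p => ?_, fun m k => ?_⟩
  · have := hd1 p
    positivity
  · have := hd1 (m, k)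
    nlinarith

variable {H : Type*} [NormedAddCommGroup H] [InnerProductSpace ℂ H] [CompleteSpace H]

lemma orthonormal_countable [TopologicalSpace.SeparableSpace H] {w : Set H}
    (hw : Orthonormal ℂ (Subtype.val : w → H)) : w.Countable := by
  have hdist : ∀ x ∈ w, ∀ y ∈ w, x ≠ y → 1 ≤ ‖x - y‖ := by
    intro x hx y hy hxy
    have h1 : ⟪x, y⟫_ℂ = 0 := hw.2 (i := ⟨x, hx⟩) (j := ⟨y, hy⟩) (fun h => hxy (congrArg Subtype.val h))
    have hxn : ‖x‖ = 1 := hw.1 ⟨x, hx⟩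
    have hyn : ‖y‖ = 1 := hw.1 ⟨y, hy⟩
    have h2 := norm_sub_sq (𝕜 := ℂ) x y
    rw [h1, hxn, hyn] at h2
    simp at h2
    nlinarith [norm_nonneg (x - y)]
  have hpd : w.PairwiseDisjoint (fun x => Metric.ball x (1 / 2)) := by
    intro x hx y hy hxy
    refine Set.disjoint_left.mpr fun u hu hu' => ?_
    rw [Metric.mem_ball, dist_eq_norm] at hu hu'
    have h3 := hdist x hx y hy hxy
    have h4 : ‖x - y‖ ≤ ‖u - x‖ + ‖u - y‖ := by
      calc ‖x - y‖ = ‖(u - y) - (u - x)‖ := by congr 1; abel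
        _ ≤ ‖u - y‖ + ‖u - x‖ := norm_sub_le _ _
        _ = _ := add_comm _ _
    linarith
  exact hpd.countable_of_isOpen (fun x _ => Metric.isOpen_ball) (fun x _ => ⟨x, by simp⟩)

lemma exists_blockBasis [TopologicalSpace.SeparableSpace H] (hinf : ¬ FiniteDimensional ℂ H) (n : ℕ × ℕ → ℕ)
    (hn : ∀ p, 0 < n p) : Nonempty (HilbertBasis (Σ p : ℕ × ℕ, Fin (n p)) ℂ H) := by
  obtain ⟨w, b, hb⟩ := exists_hilbertBasis ℂ H
  have hwo : Orthonormal ℂ (Subtype.val : w → H) := by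
    rw [← hb]; exact b.orthonormal
  have hwc : Countable w := (orthonormal_countable hwo).to_subtype
  have hwi : Infinite w := by
    by_contra hcon
    rw [not_infinite_iff_finite] at hcon
    apply hinf
    have h1 := b.dense_span
    have h2 : FiniteDimensional ℂ (Submodule.span ℂ (Set.range b)) :=
      FiniteDimensional.span_of_finite ℂ (Set.finite_range b)
    have h3 : IsClosed ((Submodule.span ℂ (Set.range b) : Submodule ℂ H) : Set H) :=
      Submodule.closed_of_finiteDimensional _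
    rw [h3.submodule_topologicalClosure_eq] at h1
    rw [h1] at h2
    exact Module.Finite.equiv (Submodule.topEquiv (R := ℂ) (M := H))
  have : ∀ p, Nonempty (Fin (n p)) := fun p => ⟨⟨0, hn p⟩⟩
  have hinf' : Infinite (Σ p : ℕ × ℕ, Fin (n p)) :=
    Infinite.of_injective (fun p : ℕ × ℕ => (⟨p, ⟨0, hn p⟩⟩ : Σ p : ℕ × ℕ, Fin (n p)))
      (fun p q h => (Sigma.mk.inj_iff.mp h).1)
  obtain ⟨e⟩ := nonempty_equiv_of_countable (α := Σ p : ℕ × ℕ, Fin (n p)) (β := w)
  refine ⟨HilbertBasis.mk (v := fun i => b (e i)) (b.orthonormal.comp e e.injective) ?_⟩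
  have : Set.range (fun i => b (e i)) = Set.range b := e.surjective.range_comp b
  rw [this, b.dense_span]

/-- every proper filter is contained in a maximal one -/
lemma exists_maximal {A : Type*} [Ring A] [StarRing A] {G : Set A} (hG : IsProjFilter G) (h0 : (0 : A) ∉ G) :
    ∃ F, G ⊆ F ∧ IsMaximalFilter F := by
  obtain ⟨F, hGF, hF⟩ := zorn_subset_nonempty {F : Set A | IsProjFilter F ∧ (0 : A) ∉ F} (by
    intro c hc hch hne
    refine ⟨⋃₀ c, ⟨⟨?_, ?_, ?_⟩, ?_⟩, fun s hs => Set.subset_sUnion_of_mem hs⟩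
    · rintro p ⟨s, hs, hp⟩
      exact (hc hs).1.proj p hp
    · rintro p ⟨s, hs, hp⟩ q ⟨t, ht, hq⟩
      rcases hch.total hs ht with h | h
      · obtain ⟨r, hr, h1, h2⟩ := (hc ht).1.directed p (h hp) q hq
        exact ⟨r, ⟨t, ht, hr⟩, h1, h2⟩
      · obtain ⟨r, hr, h1, h2⟩ := (hc hs).1.directed p hp q (h hq)
        exact ⟨r, ⟨s, hs, hr⟩, h1, h2⟩
    · rintro p ⟨s, hs, hp⟩ r hr hpr
      exact ⟨s, hs, (hc hs).1.upward p hp r hr hpr⟩
    · rintro ⟨s, hs, h⟩
      exact (hc hs).2 h) G ⟨hG, h0⟩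
  refine ⟨F, hGF, hF.prop.1, hF.prop.2, fun G' hG' h0' hFG' => ?_⟩
  exact (Set.Subset.antisymm hFG' (hF.le_of_ge ⟨hG', h0'⟩ hFG')).symm

section

variable {n : ℕ × ℕ → ℕ} (b : HilbertBasis (Σ p : ℕ × ℕ, Fin (n p)) ℂ H)

/-- the filter generated by the images of the base projections -/
def baseFilter : Set (Calkin H) := {p | IsStarProjection p ∧ ∃ V, Adm b V ∧ π (X V) * p = π (X V)}

lemma mem_baseFilter {V : ℕ × ℕ → Submodule ℂ H} (hV : Adm b V) : π (X V) ∈ baseFilter b :=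
  ⟨IsStarProjection.π (X_proj V), V, hV, by rw [← map_mul, (X_proj V).isIdempotentElem.eq]⟩

lemma isProjFilter_base : IsProjFilter (baseFilter b) := by
  refine ⟨fun p hp => hp.1, ?_, ?_⟩
  · rintro p ⟨hp, V, hV, h1⟩ q ⟨hq, W, hW, h2⟩
    have e1 : π (X fun p => V p ⊔ W p) * π (X V) = π (X fun p => V p ⊔ W p) := by
      rw [← map_mul, X_mul_of_le fun p => le_sup_left]
    have e2 : π (X fun p => V p ⊔ W p) * π (X W) = π (X fun p => V p ⊔ W p) := by
      rw [← map_mul, X_mul_of_le fun p => le_sup_right]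
    refine ⟨π (X fun p => V p ⊔ W p), mem_baseFilter b (hV.sup hW), ?_, ?_⟩
    · rw [← e1, mul_assoc, h1]
    · rw [← e2, mul_assoc, h2]
  · rintro p ⟨hp, V, hV, h1⟩ r hr hpr
    exact ⟨hr, V, hV, by rw [← h1, mul_assoc, hpr]⟩

lemma zero_notMem_base (hn : ∀ p, 0 < n p) : (0 : Calkin H) ∉ baseFilter b := by
  rintro ⟨-, V, hV, h⟩
  rw [mul_zero] at h
  exact hV.not_compact hn (π_eq_zero_iff.mp h.symm)

end

lemma tendsto_of_le {x : H →L[ℂ] H} (hx : IsStarProjection x) {V : ℕ × ℕ → Submodule ℂ H}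
    (h : π x * π (X V) = π x) {ι : Type*} {g : ι → H} (hg : Orthonormal ℂ g) (hxg : ∀ i, x (g i) = g i) :
    Tendsto (fun i => ‖g i - X V (g i)‖) cofinite (𝓝 0) := by
  have h1 : IsCompactOperator (x - x * X V : H →L[ℂ] H) := by
    rw [← π_eq_iff, map_mul, h]
  have h2 := isCompact_adjoint h1
  rw [star_sub, star_mul, hx.isSelfAdjoint.star_eq, (X_proj V).isSelfAdjoint.star_eq] at h2
  have h3 := tendsto_of_compact h2 (l := cofinite) (f := g) ⟨1, fun i => (hg.1 i).le⟩ (orthonormal_weak hg)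
  refine h3.congr fun i => ?_
  have : (x - X V * x : H →L[ℂ] H) (g i) = g i - X V (g i) := by
    change x (g i) - X V (x (g i)) = _
    rw [hxg]
  rw [this]

/-- **Main theorem.** On every infinite-dimensional separable Hilbert space there is a maximal filter
of projections of the Calkin algebra which does not lift. -/
theorem exists_maximal_not_lifts (H : Type*) [NormedAddCommGroup H] [InnerProductSpace ℂ H]
    [CompleteSpace H] [TopologicalSpace.SeparableSpace H] (hinf : ¬ FiniteDimensional ℂ H) :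
    ∃ F : Set (Calkin H), IsMaximalFilter F ∧ ¬ Lifts H F := by
  obtain ⟨n, d, hnd, hn0, hnm⟩ := exists_sizes
  obtain ⟨b⟩ := exists_blockBasis hinf n hn0
  obtain ⟨F, hbF, hF⟩ := exists_maximal (isProjFilter_base b) (zero_notMem_base b hn0)
  refine ⟨F, hF, fun hl => ?_⟩
  have hXF : ∀ V, Adm b V → π (X V) ∈ F := fun V hV => hbF (mem_baseFilter b hV)
  have hne : F.Nonempty := ⟨_, hXF _ (adm_cut b fun _ => 0)⟩
  obtain ⟨B, M, D⟩ := exists_liftData hF hne hl
  have hzB : atomProj B ∈ B := atomProj_mem D.maxB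
  have hzp := D.maxB.proj _ hzB
  rcases D.dichotomy hzB with hzF | hzF
  · -- the atomic case
    obtain ⟨v, hvo, hve, hvs⟩ := exists_eigvec_system D.maxB
    obtain ⟨V₁, hV₁, hV₁'⟩ := exists_adm_atomic₁ b hnd hvo
    obtain ⟨x₁, hx₁, hx₁V⟩ := D.cofinal _ (hXF V₁ hV₁)
    have hx₁B := D.sub hx₁
    have hx₁p := D.maxB.proj _ hx₁B
    set Y₁ : Set v := {g | x₁ g = g} with hY₁
    have hY₁o : Orthonormal ℂ (fun g : Y₁ => ((g : v) : H)) :=
      hvo.comp (Subtype.val : Y₁ → v) Subtype.val_injective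
    have hr := hV₁' Y₁ (tendsto_of_le hx₁p hx₁V hY₁o fun g => g.2)
    obtain ⟨V₂, hV₂, hV₂'⟩ := exists_adm_atomic₂ b (g := fun g : Y₁ => ((g : v) : H)) hY₁o.1 hr
    obtain ⟨x₂, hx₂, hx₂V⟩ := D.cofinal _ (hXF V₂ hV₂)
    have hx₂B := D.sub hx₂
    have hx₂p := D.maxB.proj _ hx₂B
    set c := x₁ * x₂ * atomProj B with hc
    have hcB : c ∈ B := D.maxB.mul (D.maxB.mul hx₁B hx₂B) hzB
    have hcz : c * atomProj B = c := by rw [hc, mul_assoc, hzp.isIdempotentElem.eq]
    have hnc : ¬ IsCompactOperator c := D.not_compact (D.mem _ (D.mul _ hx₁ _ hx₂)) hzF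
    have hinf2 := infinite_of_not_compact hve hvs hcB hcz hnc
    have h1c : x₁ * c = c := by rw [hc, ← mul_assoc, ← mul_assoc, hx₁p.isIdempotentElem.eq]
    have h2c : x₂ * c = c := by
      rw [hc, ← mul_assoc, ← mul_assoc, D.maxB.comm x₂ hx₂B x₁ hx₁B, mul_assoc x₁ x₂ x₂,
        hx₂p.isIdempotentElem.eq]
    have h1g : ∀ g, c g = g → x₁ g = g := fun g hg => by
      have := congrArg (fun T : H →L[ℂ] H => T g) h1c
      change x₁ (c g) = c g at this
      rwa [hg] at this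
    have h2g : ∀ g, c g = g → x₂ g = g := fun g hg => by
      have := congrArg (fun T : H →L[ℂ] H => T g) h2c
      change x₂ (c g) = c g at this
      rwa [hg] at this
    set Y₂ : Set Y₁ := {g | x₂ ((g : v) : H) = ((g : v) : H)} with hY₂
    have hY₂o : Orthonormal ℂ (fun g : Y₂ => (((g : Y₁) : v) : H)) :=
      hY₁o.comp (Subtype.val : Y₂ → Y₁) Subtype.val_injective
    have ht1 := tendsto_of_le hx₂p hx₂V hY₂o fun g => g.2
    have ht2 := hV₂'.comp (Subtype.val_injective (p := fun g => g ∈ Y₂)).tendsto_cofinite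
    have ht3 := ht1.add ht2
    rw [add_zero] at ht3
    have hinfY : Infinite Y₂ := by
      have : Infinite {g | g ∈ v ∧ c g = g} := hinf2.to_subtype
      refine Infinite.of_injective (fun g : {g | g ∈ v ∧ c g = g} =>
        (⟨⟨⟨g.1, g.2.1⟩, h1g _ g.2.2⟩, h2g _ g.2.2⟩ : Y₂)) ?_
      intro g g' h
      simpa [Subtype.ext_iff] using h
    have hneb : (cofinite : Filter Y₂).NeBot := inferInstance
    have ht4 : Tendsto (fun _ : Y₂ => (1 : ℝ)) cofinite (𝓝 0) := by
      refine squeeze_zero (fun _ => zero_le_one) (fun g => ?_) ht3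
      have h5 : ‖(((g : Y₁) : v) : H)‖ = 1 := hY₂o.1 g
      rw [← h5]
      calc ‖(((g : Y₁) : v) : H)‖ = ‖((((g : Y₁) : v) : H) - X V₂ (((g : Y₁) : v) : H)) +
            X V₂ (((g : Y₁) : v) : H)‖ := by rw [sub_add_cancel]
        _ ≤ _ := norm_add_le _ _
    exact one_ne_zero (tendsto_nhds_unique tendsto_const_nhds ht4)
  · -- the diffuse case
    obtain ⟨V, hV, hVd⟩ := exists_adm_diffuse b hnm D.maxB
    obtain ⟨x, hx, hxV⟩ := D.cofinal _ (hXF V hV)
    have hxB := D.sub hx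
    have hnc := D.not_compact hzF (D.mem _ hx)
    refine hVd ((1 - atomProj B) * x) (D.maxB.mul (D.maxB.one_sub hzB) hxB) ?_ ?_ ?_
    · rw [mul_assoc, D.maxB.comm x hxB _ hzB, ← mul_assoc, sub_mul, one_mul, hzp.isIdempotentElem.eq,
        sub_self, zero_mul]
    · intro h0
      rw [h0] at hnc
      exact hnc (isCompactOperator_zero (M₁ := H) (M₂ := H))
    · rw [← π_eq_iff, map_mul π ((1 - atomProj B) * x) (X V), map_mul π (1 - atomProj B) x, mul_assoc, hxV]

end Pool.Agent.Helper290.Calk
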